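import Pool.Agent.MP_f65396_co.h15o.Spec

/-! The second stars in the main case: centres, sizes and leaves. -/

set_option autoImplicit false

namespace Pool.Agent.MP_f65396_co.h15o

open Finset Pool.Agent.MP_f65396_co.h15

/-- The prescribed leaves of the star at the ordinary low vertex `j`. -/
def Pre (N c s D B m : ℕ) (h : ℕ → ℕ → Prop) (ω : ℕ → ℕ) (j v : ℕ) : Prop :=
  (s ≤ v ∧ v < j ∧ j ≤ v + B ∧ ¬ h v j) ∨
  (N - m + j < v ∧ v ≤ N - m + j + B ∧ v < N ∧ ¬ h j (v - (N - m)) ∧ ¬ h j v) ∨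
  (m - 3 * D ≤ j ∧ v < N - 3 * D ∧ ¬ (m - 3 * D ≤ v ∧ v < m) ∧ h v (N - m + j) ∧ ¬ h v j) ∨
  (j < s + c ∧ ∃ i < s, v = ω i ∧ ¬ h i j ∧ ¬ h j v)

/-- The leaves of the star at the exceptional vertex `i`. -/
def PreX (c s : ℕ) (h : ℕ → ℕ → Prop) (ω : ℕ → ℕ) (i v : ℕ) : Prop :=
  (v < i ∧ ¬ h i v) ∨ (s ≤ v ∧ v < s + c ∧ ¬ h i v) ∨
  ∃ k, i < k ∧ k < s ∧ v = ω k ∧ ¬ h i k ∧ ¬ h i v

/-- The padding leaves. -/
def Pad (N s D B m : ℕ) (h : ℕ → ℕ → Prop) (z : ℕ → ℕ) (p v : ℕ) : Prop :=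
  m + 2 * s + (3 * B + 2 * D) + (p - (N - m - (3 * B + 2 * D))) ≤ v ∧
  v < m + 2 * s + (3 * B + 2 * D) + (p - (N - m - (3 * B + 2 * D))) + (2 * B + 3 * D) ∧
  ¬ h v (z p)

/-- The centres. -/
structure HZ (N c s D B m : ℕ) (ω z : ℕ → ℕ) : Prop where
  wr : ∀ i < s, N - m - (3 * B + 2 * D) ≤ ω i ∧ ω i < N - m - (3 * B + 2 * D) + B
  wi : ∀ i < s, ∀ k < s, ω i = ω k → i = k
  zs : ∀ p < s, z p = m + (p - c)
  zw : ∀ i < s, z (ω i) = i
  zt : ∀ p, N - m - (3 * B + 2 * D) ≤ p → p < N - m + s → (∀ i < s, ω i ≠ p) →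
    z p = m + s + (p - (N - m - (3 * B + 2 * D)))
  zu : ∀ j, s ≤ j → z (N - m + j) = j

/-- The leaf sets. -/
structure HL (N c s D B m : ℕ) (h : ℕ → ℕ → Prop) (ω z : ℕ → ℕ) (L : ℕ → Finset ℕ) : Prop where
  b1 : ∀ p < s, (L p).card = p + 1 - c
  b2 : ∀ p, s ≤ p → p < N → (L p).card ≤ p - (N - m - (3 * B + 2 * D))
  b3 : ∀ p, s ≤ p → p + 1 < N → (L p).card ≤ (L (p + 1)).card ∧ (L (p + 1)).card ≤ (L p).card + 1
  b4 : ∀ p, N - m ≤ p → p < N → (L p).card = 2 * B + 2 * D
  b5 : ∀ p < N, (L p).card ≤ 2 * B + 2 * D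
  mem : ∀ p < N, ∀ v ∈ L p, (∃ j, s ≤ j ∧ j < m ∧ p = N - m + j ∧ Pre N c s D B m h ω j v) ∨
    (∃ i < s, p = ω i ∧ PreX c s h ω i v) ∨ Pad N s D B m h z p v
  pre : ∀ j, s ≤ j → j < m → ∀ v, Pre N c s D B m h ω j v → v ∈ L (N - m + j)
  prex : ∀ i < s, ∀ v, PreX c s h ω i v → v ∈ L (ω i)

variable {N n c s D B m : ℕ} {h : ℕ → ℕ → Prop} [DecidableRel h] {ω z : ℕ → ℕ}
  {L : ℕ → Finset ℕ}

lemma sg_lt {i : ℕ} (hi : i < s) : sg s c h ω i < s + c := by
  unfold sg
  have a1 := card_filter_le (range i) (fun k => ¬ h i k)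
  have a2 := card_filter_le (Ico s (s + c)) (fun k => ¬ h i k)
  have a3 := card_filter_le (Ioo i s) (fun k => ¬ h i k ∧ ¬ h i (ω k))
  rw [card_range] at a1
  rw [Nat.card_Ico] at a2
  rw [Nat.card_Ioo] at a3
  omega

lemma blk_lt (hL : (s + 1) * (s + c) ≤ B) {a i : ℕ} (ha : a < s + c) (hi : i < s) :
    (s + 1) * a + i < B := by
  have a1 : (s + 1) * (a + 1) ≤ (s + 1) * (s + c) := Nat.mul_le_mul_left _ ha
  rw [Nat.mul_succ] at a1
  omega

lemma blk_div {a i : ℕ} (hi : i < s) : ((s + 1) * a + i) / (s + 1) = a := by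
  rw [Nat.mul_add_div (Nat.succ_pos s), Nat.div_eq_of_lt (by omega)]
  rfl

theorem exists_Z (H : H1 N n c s D B m h ω) : ∃ z, HZ N c s D B m ω z := by
  classical
  have := H.hN
  have := H.hcD
  have := H.hsD
  have := H.hB
  have := H.hm
  have := H.hn
  have wr : ∀ i < s, N - m - (3 * B + 2 * D) ≤ ω i ∧ ω i < N - m - (3 * B + 2 * D) + B := by
    intro i hi
    have a1 := H.pos i hi
    have a2 := blk_lt H.hL (sg_lt (c := c) (h := h) (ω := ω) hi) hi
    omega
  have wi : ∀ i < s, ∀ k < s, ω i = ω k → i = k := by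
    intro i hi k hk e
    have a1 := H.pos i hi
    have a2 := H.pos k hk
    have a3 : (s + 1) * sg s c h ω i + i = (s + 1) * sg s c h ω k + k := by omega
    have a4 : sg s c h ω i = sg s c h ω k := by
      rw [← blk_div (a := sg s c h ω i) hi, a3, blk_div hk]
    rw [a4] at a3
    omega
  refine ⟨fun p => if p < s then m + (p - c) else if e : ∃ i < s, ω i = p then e.choose else
    if p < N - m + s then m + s + (p - (N - m - (3 * B + 2 * D))) else p - (N - m),
    wr, wi, fun p hp => if_pos hp, fun i hi => ?_, fun p h1 h2 h3 => ?_, fun j hj => ?_⟩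
  · have a := wr i hi
    have e : ∃ k < s, ω k = ω i := ⟨i, hi, rfl⟩
    rw [if_neg (by omega), dif_pos e]
    exact wi _ e.choose_spec.1 i hi e.choose_spec.2
  · rw [if_neg (by omega), dif_neg fun ⟨i, hi, e⟩ => h3 i hi e, if_pos h2]
  · rw [if_neg (by omega), dif_neg fun ⟨i, hi, e⟩ => by
      have := wr i hi
      omega, if_neg (by omega)]
    omega

omit [DecidableRel h] in
lemma zcase (Z : HZ N c s D B m ω z) {p : ℕ} (hp : p < s ∨ N - m - (3 * B + 2 * D) ≤ p) :
    (p < s ∧ z p = m + (p - c)) ∨ (∃ i < s, p = ω i ∧ z p = i) ∨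
    (N - m - (3 * B + 2 * D) ≤ p ∧ p < N - m + s ∧
      z p = m + s + (p - (N - m - (3 * B + 2 * D)))) ∨ (N - m + s ≤ p ∧ z p = p - (N - m)) := by
  by_cases e1 : p < s
  · exact Or.inl ⟨e1, Z.zs p e1⟩
  by_cases e2 : ∃ i < s, ω i = p
  · obtain ⟨i, hi, rfl⟩ := e2
    exact Or.inr (Or.inl ⟨i, hi, rfl, Z.zw i hi⟩)
  by_cases e3 : p < N - m + s
  · exact Or.inr (Or.inr (Or.inl ⟨by omega, e3,
      Z.zt p (by omega) e3 fun i hi e => e2 ⟨i, hi, e⟩⟩))
  · refine Or.inr (Or.inr (Or.inr ⟨by omega, ?_⟩))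
    have := Z.zu (p - (N - m)) (by omega)
    rwa [show N - m + (p - (N - m)) = p by omega] at this

/-- The size of the second star. -/
def bf (N c s D B m p : ℕ) : ℕ := if p < s then p + 1 - c else
  min ((p - (N - m - (3 * B + 2 * D))) / (s + 1)) (s + c) +
    min (p - (N - m - (3 * B + 2 * D)) - B) (2 * B + 2 * D - (s + c))

lemma div_big (hL : (s + 1) * (s + c) ≤ B) {x : ℕ} (hx : B ≤ x) : s + c ≤ x / (s + 1) := by
  rw [Nat.le_div_iff_mul_le (Nat.succ_pos s), mul_comm]
  exact hL.trans hx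

theorem exists_L (H : H1 N n c s D B m h ω) (Z : HZ N c s D B m ω z) :
    ∃ L, HL N c s D B m h ω z L := by
  classical
  have := H.hN
  have := H.hc
  have := H.hcD
  have := H.hsD
  have := H.hB
  have := H.hm
  have := H.hn
  have f4 : ∀ p, N - m ≤ p → bf N c s D B m p = 2 * B + 2 * D := by
    intro p hp
    have a := div_big H.hL (x := p - (N - m - (3 * B + 2 * D))) (by omega)
    unfold bf
    rw [if_neg (by omega)]
    omega
  have f5 : ∀ p, bf N c s D B m p ≤ 2 * B + 2 * D := by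
    intro p
    unfold bf
    split_ifs <;> omega
  have f2 : ∀ p, s ≤ p → bf N c s D B m p ≤ p - (N - m - (3 * B + 2 * D)) := by
    intro p hp
    have a := Nat.div_le_self (p - (N - m - (3 * B + 2 * D))) (s + 1)
    unfold bf
    rw [if_neg (by omega)]
    omega
  have f3 : ∀ p, s ≤ p → bf N c s D B m p ≤ bf N c s D B m (p + 1) ∧
      bf N c s D B m (p + 1) ≤ bf N c s D B m p + 1 := by
    intro p hp
    unfold bf
    rw [if_neg (by omega), if_neg (by omega)]
    by_cases e : N - m - (3 * B + 2 * D) ≤ p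
    · rw [show p + 1 - (N - m - (3 * B + 2 * D)) = p - (N - m - (3 * B + 2 * D)) + 1 by omega]
      generalize p - (N - m - (3 * B + 2 * D)) = x
      have a1 := Nat.succ_div (a := x) (b := s + 1)
      by_cases e' : B ≤ x
      · have a2 := div_big H.hL e'
        split_ifs at a1 <;> omega
      · split_ifs at a1 <;> omega
    · rw [show p + 1 - (N - m - (3 * B + 2 * D)) = 0 by omega,
        show p - (N - m - (3 * B + 2 * D)) = 0 by omega]
      omega
  have key : ∀ p, p < N → ∃ S : Finset ℕ, S.card = bf N c s D B m p ∧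
      (∀ v ∈ S, (∃ j, s ≤ j ∧ j < m ∧ p = N - m + j ∧ Pre N c s D B m h ω j v) ∨
        (∃ i < s, p = ω i ∧ PreX c s h ω i v) ∨ Pad N s D B m h z p v) ∧
      (∀ j, s ≤ j → j < m → p = N - m + j → ∀ v, Pre N c s D B m h ω j v → v ∈ S) ∧
      ∀ i < s, p = ω i → ∀ v, PreX c s h ω i v → v ∈ S := by
    intro p hp
    by_cases ew : ∃ i < s, p = ω i
    · obtain ⟨i, hi, rfl⟩ := ew
      have r := Z.wr i hi
      refine ⟨(range i).filter (fun k => ¬ h i k) ∪ (Ico s (s + c)).filter (fun k => ¬ h i k) ∪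
        ((Ioo i s).filter (fun k => ¬ h i k ∧ ¬ h i (ω k))).image ω, ?_, fun v hv => ?_,
        fun j _ _ e => by omega, fun k hk e v hv => ?_⟩
      · rw [card_union_of_disjoint, card_union_of_disjoint, card_image_of_injOn]
        · have a1 := H.pos i hi
          have a2 := sg_lt (c := c) (h := h) (ω := ω) hi
          have a3 := blk_lt H.hL a2 hi
          unfold bf
          rw [if_neg (by omega), show ω i - (N - m - (3 * B + 2 * D)) =
            (s + 1) * sg s c h ω i + i by omega, blk_div hi]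
          change sg s c h ω i = _
          omega
        · exact fun a ha b hb e => Z.wi a (mem_Ioo.1 (mem_filter.1 ha).1).2 b
            (mem_Ioo.1 (mem_filter.1 hb).1).2 e
        · refine disjoint_left.2 fun a h1 h2 => ?_
          have a1 := mem_range.1 (mem_filter.1 h1).1
          have a2 := mem_Ico.1 (mem_filter.1 h2).1
          omega
        · refine disjoint_left.2 fun a h1 h2 => ?_
          obtain ⟨k, hk, rfl⟩ := mem_image.1 h2
          have a1 := Z.wr k (mem_Ioo.1 (mem_filter.1 hk).1).2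
          rcases mem_union.1 h1 with t | t
          · have a2 := mem_range.1 (mem_filter.1 t).1
            omega
          · have a2 := mem_Ico.1 (mem_filter.1 t).1
            omega
      · refine Or.inr (Or.inl ⟨i, hi, rfl, ?_⟩)
        simp only [mem_union, mem_filter, mem_range, mem_Ico, mem_image, mem_Ioo] at hv
        rcases hv with (t | t) | ⟨k, t, rfl⟩
        · exact Or.inl t
        · exact Or.inr (Or.inl ⟨t.1.1, t.1.2, t.2⟩)
        · exact Or.inr (Or.inr ⟨k, t.1.1, t.1.2, rfl, t.2⟩)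
      · obtain rfl := Z.wi i hi k hk e
        simp only [mem_union, mem_filter, mem_range, mem_Ico, mem_image, mem_Ioo]
        rcases hv with t | t | ⟨k, t1, t2, rfl, t3⟩
        · exact Or.inl (Or.inl t)
        · exact Or.inl (Or.inr ⟨⟨t.1, t.2.1⟩, t.2.2⟩)
        · exact Or.inr ⟨k, ⟨⟨t1, t2⟩, t3⟩, rfl⟩
    by_cases e0 : bf N c s D B m p = 0
    · refine ⟨∅, e0.symm, by simp, fun j _ _ e => ?_, fun i hi e => absurd ⟨i, hi, e⟩ ew⟩
      have := f4 p (by omega)
      omega
    have act : p < s ∨ N - m - (3 * B + 2 * D) ≤ p := by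
      by_contra k
      have := f2 p (by omega)
      omega
    have zr : s ≤ z p ∧ z p < N := by
      rcases zcase Z act with t | ⟨i, hi, t, -⟩ | t | t
      · omega
      · exact absurd ⟨i, hi, t⟩ ew
      · omega
      · omega
    set C := (range N).filter
      (fun v => ∃ j, s ≤ j ∧ j < m ∧ p = N - m + j ∧ Pre N c s D B m h ω j v) with hC
    set W := (range N).filter (fun v => Pad N s D B m h z p v) with hW
    have c1 : C.card ≤ bf N c s D B m p := by
      by_cases e : N - m ≤ p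
      · have s1 : C ⊆ (Ico (p - (N - m) - B) (p - (N - m)) ∪ Ioc p (p + B)) ∪
            ((range N).filter (h p) ∪ (range s).image ω) := by
          intro v hv
          obtain ⟨v1, j, -, hj, rfl, v2⟩ := mem_filter.1 hv
          simp only [mem_union, mem_Ico, mem_Ioc, mem_filter]
          rcases v2 with v2 | v2 | v2 | ⟨-, i, hi, rfl, -⟩
          · exact Or.inl (Or.inl (by omega))
          · exact Or.inl (Or.inr (by omega))
          · exact Or.inr (Or.inl ⟨v1, H.hs _ _ v2.2.2.2.1⟩)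
          · exact Or.inr (Or.inr (mem_image_of_mem _ (mem_range.2 hi)))
        have a1 := (card_le_card s1).trans ((card_union_le _ _).trans (Nat.add_le_add
          (card_union_le _ _) ((card_union_le _ _).trans
            (Nat.add_le_add (H.hD p (by omega) hp) card_image_le))))
        rw [Nat.card_Ico, Nat.card_Ioc, card_range] at a1
        rw [f4 p e]
        omega
      · have s1 : C = ∅ := filter_eq_empty_iff.2 fun v _ ⟨j, _, _, e', _⟩ => by omega
        rw [s1]
        exact Nat.zero_le _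
    have c2 : 2 * B + 2 * D ≤ W.card := by
      have s1 : Ico (m + 2 * s + (3 * B + 2 * D) + (p - (N - m - (3 * B + 2 * D))))
          (m + 2 * s + (3 * B + 2 * D) + (p - (N - m - (3 * B + 2 * D))) + (2 * B + 3 * D)) ⊆
          W ∪ (range N).filter (h (z p)) := by
        intro v hv
        rw [mem_Ico] at hv
        have v1 : v ∈ range N := mem_range.2 (by omega)
        by_cases e : h v (z p)
        · exact mem_union_right _ (mem_filter.2 ⟨v1, H.hs _ _ e⟩)
        · exact mem_union_left _ (mem_filter.2 ⟨v1, hv.1, hv.2, e⟩)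
      have a1 := (card_le_card s1).trans ((card_union_le _ _).trans
        (Nat.add_le_add_left (H.hD _ zr.1 zr.2) _))
      rw [Nat.card_Ico] at a1
      omega
    obtain ⟨S, s1, s2, s3⟩ := exists_subsuperset_card_eq (subset_union_left (s₁ := C) (s₂ := W))
      c1 (((f5 p).trans c2).trans (card_le_card subset_union_right))
    refine ⟨S, s3, fun v hv => ?_, fun j h1 hj e v hv => s1 (mem_filter.2 ⟨?_, j, h1, hj, e, hv⟩),
      fun i hi e => absurd ⟨i, hi, e⟩ ew⟩
    · rcases mem_union.1 (s2 hv) with e | e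
      · exact Or.inl (mem_filter.1 e).2
      · exact Or.inr (Or.inr (mem_filter.1 e).2)
    · rw [mem_range]
      rcases hv with hv | hv | hv | ⟨-, i, hi, rfl, -⟩
      · omega
      · omega
      · omega
      · have := Z.wr i hi
        omega
  choose! L l1 l2 l3 l4 using key
  refine ⟨L, fun p hp => ?_, fun p h1 hp => ?_, fun p h1 hp => ?_, fun p h1 hp => ?_,
    fun p hp => ?_, l2, fun j h1 hj v hv => l3 _ (by omega) j h1 hj rfl v hv,
    fun i hi v hv => l4 _ ?_ i hi rfl v hv⟩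
  · rw [l1 p (by omega)]
    exact if_pos hp
  · rw [l1 p hp]
    exact f2 p h1
  · rw [l1 p (by omega), l1 _ hp]
    exact f3 p h1
  · rw [l1 p hp]
    exact f4 p h1
  · rw [l1 p hp]
    exact f5 p
  · have := Z.wr i hi
    omega

end Pool.Agent.MP_f65396_co.h15o
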