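import Pool.Agent.MP_f65396_co.h15o.Spec
import Pool.Agent.MP_f65396_co.h15.Core3

/-! The two stars of every colour in the degenerate case. -/

set_option autoImplicit false

namespace Pool.Agent.MP_f65396_co.h15o

open Finset Pool.Agent.MP_f65396_co.h15

namespace Core0

variable {N n c D Z : ℕ} {h : ℕ → ℕ → Prop} [DecidableRel h]

/-- The allowed targets. -/
def alw0 (N c : ℕ) (h : ℕ → ℕ → Prop) [DecidableRel h] (p : ℕ) : Finset ℕ :=
  (range N).filter fun y => c - 1 ≤ p ∧ y ≠ p ∧ ¬ h p y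

/-- The lower neighbours. -/
def lw (h : ℕ → ℕ → Prop) [DecidableRel h] (p : ℕ) : Finset ℕ :=
  (range p).filter fun y => ¬ h p y

/-- The edges among the exceptional vertices. -/
def ed (c : ℕ) (h : ℕ → ℕ → Prop) [DecidableRel h] : Finset (ℕ × ℕ) :=
  (range (c - 1) ×ˢ range (c - 1)).filter fun q => q.2 < q.1 ∧ ¬ h q.1 q.2

lemma mem_alw0 {p y : ℕ} : y ∈ alw0 N c h p ↔ y < N ∧ c - 1 ≤ p ∧ y ≠ p ∧ ¬ h p y := by
  simp only [alw0, mem_filter, mem_range]

lemma mem_ed {q : ℕ × ℕ} (hq : q ∈ ed c h) : q.1 < c - 1 ∧ q.2 < q.1 ∧ ¬ h q.1 q.2 := by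
  simp only [ed, mem_filter, mem_product, mem_range] at hq
  exact ⟨hq.1.1, hq.2⟩

lemma ed_le : (ed c h).card ≤ c * c := by
  refine (card_filter_le _ _).trans ?_
  rw [card_product, card_range]
  exact Nat.mul_le_mul (by omega) (by omega)

lemma ed_ge : ∑ p ∈ range (c - 1), (lw h p).card ≤ (ed c h).card := by
  rw [ed, card_filter, sum_product]
  refine sum_le_sum fun p hp => ?_
  rw [← card_filter]
  refine card_le_card fun y hy => ?_
  simp only [lw, mem_filter, mem_range] at hp hy ⊢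
  exact ⟨by omega, hy⟩

lemma exists_phi (E : Finset (ℕ × ℕ)) : ∃ φ : ℕ → ℕ × ℕ, (∀ i < E.card, φ i ∈ E) ∧
    ∀ i < E.card, ∀ j < E.card, φ i = φ j → i = j := by
  refine ⟨fun i => if hi : i < E.card then (E.equivFin.symm ⟨i, hi⟩).1 else (0, 0),
    fun i hi => ?_, fun i hi j hj e => ?_⟩
  · simp only [dif_pos hi]
    exact (E.equivFin.symm ⟨i, hi⟩).2
  · simp only [dif_pos hi, dif_pos hj] at e
    exact Fin.mk.inj_iff.1 (E.equivFin.symm.injective (Subtype.ext e))

lemma nat_lo {p : ℕ} (hp : p < c - 1) : nat (alw0 N c h) p = ∅ := by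
  refine eq_empty_of_forall_notMem fun y hy => ?_
  have := (mem_alw0.1 (mem_filter.1 hy).1).2.1
  omega

lemma nat_hi (hs : ∀ u v, h u v → h v u) {p : ℕ} (hp : c - 1 ≤ p) (hN : p < N) :
    nat (alw0 N c h) p = lw h p := by
  ext y
  simp only [nat, lw, mem_filter, mem_alw0, mem_range]
  constructor
  · rintro ⟨⟨b1, -, b2, b3⟩, b4⟩
    refine ⟨?_, b3⟩
    by_contra k
    rcases b4 with b4 | b4
    · exact k b4
    · exact b4 ⟨hN, by omega, b2.symm, fun t => b3 (hs _ _ t)⟩
  · rintro ⟨b1, b2⟩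
    exact ⟨⟨by omega, hp, by omega, b2⟩, Or.inl b1⟩

lemma lw_le (H : H2 N n c D Z h) {p : ℕ} (hp : c - 1 ≤ p) (hN : p < N) :
    (lw h p).card ≤ p + 1 - c := by
  have e1 := H.low p hp hN
  have e2 := card_filter_add_card_filter_not (s := Ico (c - 1) p) (h p)
  have hc := H.hc
  have s : lw h p ⊆ (range (c - 1)).filter (fun q => ¬ h p q) ∪
      (Ico (c - 1) p).filter (fun q => ¬ h p q) := by
    intro y hy
    simp only [lw, mem_filter, mem_range, mem_union, mem_Ico] at hy ⊢
    by_cases k : y < c - 1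
    · exact Or.inl ⟨k, hy.2⟩
    · exact Or.inr ⟨⟨by omega, hy.1⟩, hy.2⟩
  have e3 := (card_le_card s).trans (card_union_le _ _)
  rw [Nat.card_Ico] at e2
  omega

lemma lw_ge (H : H2 N n c D Z h) {p : ℕ} (hp : Z ≤ p) (hN : p < N) :
    p + 1 - c ≤ (lw h p).card := by
  have hc := H.hc
  have s : Ico (c - 1) p ⊆ lw h p := by
    intro y hy
    simp only [lw, mem_filter, mem_range, mem_Ico] at hy ⊢
    refine ⟨hy.2, fun t => ?_⟩
    have := (H.full p hp hN y (by omega)).1 t
    omega
  have e3 := card_le_card s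
  rw [Nat.card_Ico] at e3
  omega

lemma chkK (H : H2 N n c D Z h) {x : ℕ} (hx : c - 1 ≤ x) (hN : x < N) :
    ((range N).filter (fun y => ¬ (y ∈ alw0 N c h x ∧ x ∈ alw0 N c h y))).card ≤ D + c + 1 := by
  have s : (range N).filter (fun y => ¬ (y ∈ alw0 N c h x ∧ x ∈ alw0 N c h y)) ⊆
      (range N).filter (h x) ∪ (range (c - 1) ∪ {x}) := by
    intro y hy
    obtain ⟨y1, y2⟩ := mem_filter.1 hy
    by_contra k
    simp only [mem_union, mem_filter, mem_singleton, not_or, mem_range] at k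
    obtain ⟨k1, k2, k3⟩ := k
    rw [mem_range] at y1
    have b : ¬ h x y := fun t => k1 ⟨y1, t⟩
    exact y2 ⟨mem_alw0.2 ⟨y1, hx, k3, b⟩,
      mem_alw0.2 ⟨hN, by omega, fun t => k3 t.symm, fun t => b (H.hs _ _ t)⟩⟩
  have e1 := (card_le_card s).trans ((card_union_le _ _).trans
    (Nat.add_le_add_left (card_union_le _ _) _))
  have e2 := H.hD x hx hN
  rw [card_range, card_singleton] at e1
  omega

lemma tot_lw (H : H2 N n c D Z h) : n * (n + 1) ≤ 2 * ∑ p ∈ range N, (lw h p).card := by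
  have t1 : ∀ x ∈ range N, N - 1 ≤ ((range N).filter (h x)).card +
      ((lw h x).card + ((range N).filter (fun y => x ∈ lw h y)).card) := by
    intro x hx
    have s : (range N).erase x ⊆ (range N).filter (h x) ∪
        (lw h x ∪ (range N).filter (fun y => x ∈ lw h y)) := by
      intro y hy
      obtain ⟨y1, y2⟩ := mem_erase.1 hy
      simp only [lw, mem_union, mem_filter, mem_range] at y2 ⊢
      by_cases k : h x y
      · exact Or.inl ⟨y2, k⟩
      · rcases lt_or_gt_of_ne y1 with u | u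
        · exact Or.inr (Or.inl ⟨u, k⟩)
        · exact Or.inr (Or.inr ⟨y2, u, fun t => k (H.hs _ _ t)⟩)
    have a1 := (card_le_card s).trans ((card_union_le _ _).trans
      (Nat.add_le_add_left (card_union_le _ _) _))
    rwa [card_erase_of_mem hx, card_range] at a1
  have t2 := sum_le_sum t1
  simp only [sum_add_distrib, sum_const, card_range, smul_eq_mul] at t2
  have t3 := sum_flip_le N (lw h)
  have t8 := H.hsum
  omega

lemma tot_nat (H : H2 N n c D Z h) : ∑ p ∈ range N, (lw h p).card ≤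
    ∑ p ∈ range N, (nat (alw0 N c h) p).card + (ed c h).card := by
  have h1 : c - 1 ≤ N := by
    have := H.hN
    omega
  have e1 := sum_range_add_sum_Ico (fun p => (lw h p).card) h1
  have e2 := sum_range_add_sum_Ico (fun p => (nat (alw0 N c h) p).card) h1
  have e3 : ∑ p ∈ Ico (c - 1) N, (nat (alw0 N c h) p).card = ∑ p ∈ Ico (c - 1) N, (lw h p).card :=
    sum_congr rfl fun p hp => by rw [nat_hi H.hs (mem_Ico.1 hp).1 (mem_Ico.1 hp).2]
  have e4 := ed_ge (c := c) (h := h)
  omega

lemma tot_a {e : ℕ} (he : c + e ≤ N) :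
    ∑ x ∈ range N, (x + 1 - c - if N - e ≤ x then 1 else 0) + e = ∑ x ∈ range N, (x + 1 - c) := by
  have e1 : ∑ x ∈ range N, (if N - e ≤ x then 1 else 0) = e := by
    rw [← card_filter, show (range N).filter (fun x => N - e ≤ x) = Ico (N - e) N from by
      ext y
      simp only [mem_filter, mem_range, mem_Ico]
      omega, Nat.card_Ico]
    omega
  have e2 : ∑ x ∈ range N, (x + 1 - c - if N - e ≤ x then 1 else 0) +
      ∑ x ∈ range N, (if N - e ≤ x then 1 else 0) = ∑ x ∈ range N, (x + 1 - c) := by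
    rw [← sum_add_distrib]
    refine sum_congr rfl fun x _ => ?_
    split_ifs <;> omega
  omega

end Core0

open Core0 in
theorem core0 (ho : Ori2S) : Core0S := by
  intro N n c D Z h _ H
  have hN := H.hN
  have hc := H.hc
  have hZ := H.hZ
  have num := H.num
  have he := ed_le (c := c) (h := h)
  obtain ⟨φ, p1, p2⟩ := exists_phi (ed c h)
  have t1 := tot_lw H
  have t2 := tot_nat H
  generalize (ed c h).card = e at he p1 p2 t2
  generalize c * c = cc at he num
  have t3 := tot_a (N := N) (c := c) (e := e) (by omega)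
  have t4 := gauss c hc n
  rw [← hN] at t4
  obtain ⟨A, a1, a2⟩ := ho N (c - 1) (N - e) (N - Z) N 0 (D + c + 1) 1 0 (alw0 N c h)
    (fun x => x + 1 - c - if N - e ≤ x then 1 else 0) (fun _ => 1)
    (fun x _ y hy => ⟨(mem_alw0.1 hy).1, (mem_alw0.1 hy).2.2.1⟩) (fun x h1 h2 => chkK H h1 h2)
    (fun x hx => by omega) (by omega)
    (fun x hx => by
      rw [if_neg (by omega)]
      by_cases k : x < c - 1
      · rw [nat_lo k, card_empty]
        omega
      · rw [nat_hi H.hs (by omega) (by omega)]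
        exact lw_le H (by omega) (by omega))
    (fun x h1 h2 => by omega)
    (fun x h1 h2 => by
      rw [nat_hi H.hs (by omega) h2]
      have := lw_ge H (p := x) (by omega) h2
      omega)
    (fun x h1 h2 => by
      rw [nat_hi H.hs (by omega) h2, if_pos h1]
      have := lw_le H (p := x) (by omega) h2
      omega)
    (by rw [Ico_eq_empty (by omega), sum_empty]) (fun x _ => by omega) (by omega) (by omega)
    (by omega) (Or.inr (by omega))
  have am : ∀ p < N, ∀ y ∈ A p, _ := fun p hp y hy => mem_alw0.1 ((a1 p hp).1 hy)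
  have lm : ∀ p < N, ∀ y ∈ (if N - e ≤ p then {(φ (p - (N - e))).2} else ∅ : Finset ℕ),
      N - e ≤ p ∧ y = (φ (p - (N - e))).2 ∧ (φ (p - (N - e))).1 < c - 1 ∧
        y < (φ (p - (N - e))).1 ∧ ¬ h (φ (p - (N - e))).1 y := by
    intro p hp y hy
    by_cases k : N - e ≤ p
    · rw [if_pos k, mem_singleton] at hy
      rw [hy]
      exact ⟨k, rfl, mem_ed (p1 _ (by omega))⟩
    · rw [if_neg k] at hy
      exact absurd hy (notMem_empty _)
  have lc : ∀ p, (if N - e ≤ p then {(φ (p - (N - e))).2} else ∅ : Finset ℕ).card =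
      if N - e ≤ p then 1 else 0 := by
    intro p
    split_ifs <;> simp only [card_singleton, card_empty]
  refine ⟨fun p => p, fun p => if N - e ≤ p then (φ (p - (N - e))).1 else 0, A,
    fun p => if N - e ≤ p then {(φ (p - (N - e))).2} else ∅, fun p _ hp => ⟨hp, ?_⟩,
    fun p _ hp y hy => ?_, fun p h1 hp y hy => ?_, fun p h1 hp => ?_, fun p h1 hp => ?_,
    fun p _ hp q _ hq y hy w hw t => ?_, fun p h1 hp q _ hq y _ w hw t => ?_,
    fun p _ hp q _ hq y hy w hw t => ?_⟩
  · beta_reduce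
    split_ifs with k
    · have := (mem_ed (p1 (p - (N - e)) (by omega))).1
      omega
    · omega
  · exact ⟨(am p hp y hy).1, (am p hp y hy).2.2⟩
  · obtain ⟨b1, -, b3, b4, b5⟩ := lm p hp y hy
    simp only [if_pos b1]
    exact ⟨by omega, by omega, b5, by omega,
      fun t => (am p hp _ t).2.2.2 ((H.full p (by omega) hp _ (by omega)).2 b3), by omega,
      fun t => (am p hp _ t).2.2.2 ((H.full p (by omega) hp _ (by omega)).2 (by omega))⟩
  · rw [(a1 p hp).2, lc]
    split_ifs <;> omega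
  · rw [(a1 p (by omega)).2, (a1 (p + 1) hp).2, lc, lc]
    split_ifs <;> omega
  · rcases Sym2.eq_iff.1 t with u | u
    · exact u.1
    · have u1 : p = w := u.1
      have u2 : y = q := u.2
      exact absurd (u1 ▸ hw) (a2 p hp q hq (u2 ▸ hy))
  · obtain ⟨b1, -, b3, b4, -⟩ := lm q hq w hw
    simp only [if_pos b1] at t
    rcases Sym2.eq_iff.1 t with u | u <;> omega
  · obtain ⟨b1, b2, -, b4, -⟩ := lm p hp y hy
    obtain ⟨d1, d2, -, d4, -⟩ := lm q hq w hw
    simp only [if_pos b1, if_pos d1] at t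
    rcases Sym2.eq_iff.1 t with u | u
    · have := p2 (p - (N - e)) (by omega) (q - (N - e)) (by omega)
        (Prod.ext u.1 (by rw [← b2, ← d2, u.2]))
      omega
    · omega

end Pool.Agent.MP_f65396_co.h15o
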