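import Pool.Agent.MP_f65396_co.h15.Spec
import Mathlib.Order.Interval.Finset.Nat

/-! Statements of the auxiliary steps for graphs of small order. -/

set_option autoImplicit false

namespace Pool.Agent.MP_f65396_co.h15o

open Finset Pool.Agent.MP_f65396_co.h15

/-- Orientation with prescribed out-degrees and `s` exceptional sinks. -/
def Ori2S : Prop := ∀ (N s m1 m2 B E K σ R : ℕ) (al : ℕ → Finset ℕ) (a w : ℕ → ℕ),
  (∀ x < N, ∀ y ∈ al x, y < N ∧ y ≠ x) →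
  (∀ x, s ≤ x → x < N → ((range N).filter (fun y => ¬ (y ∈ al x ∧ x ∈ al y))).card ≤ K) →
  (∀ x < s, a x = 0) →
  (∑ x ∈ range N, a x ≤ ∑ x ∈ range N, (nat al x).card) →
  (∀ x < m1, (nat al x).card ≤ a x) →
  (∀ x, B ≤ x → x < m1 → (nat al x).card + E ≤ a x) →
  (∀ x, N - m2 ≤ x → x < N → a x ≤ (nat al x).card) →
  (∀ x, m1 ≤ x → x < N → (nat al x).card ≤ a x + w x ∧ w x ≤ σ) →
  (∑ x ∈ Ico m1 (N - m2), w x ≤ R) →
  (∀ x < N, a x ≤ x) →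
  s ≤ m1 → m1 ≤ N → m2 ≤ N →
  (R + 2 * K * σ + E * (B + K + σ) ≤ E * m1 ∨ N + 3 * K + σ ≤ m1 + m2) →
  ∃ A : ℕ → Finset ℕ, (∀ x < N, A x ⊆ al x ∧ (A x).card = a x) ∧
    ∀ x < N, ∀ y < N, y ∈ A x → x ∉ A y

/-- The complement graph `h` on the vertex set `U`. -/
structure G0 {V : Type} (U : Finset V) (h : V → V → Prop) [DecidableRel h] (n c : ℕ) : Prop where
  hs : ∀ u v, h u v → h v u
  hi : ∀ u, ¬ h u u
  hU : U.card = n + c
  hc : 1 ≤ c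
  hn : 10 ^ 31 * c ^ 6 ≤ n
  hsum : ∑ u ∈ U, (U.filter (h u)).card + n * (n + 1) = (n + c) * (n + c - 1)

/-- `X` consists of `c - 1` nearly isolated vertices. -/
def Tiny {V : Type} [DecidableEq V] (U : Finset V) (h : V → V → Prop) [DecidableRel h] (n c : ℕ)
    (X : Finset V) : Prop :=
  X ⊆ U ∧ X.card + 1 = c ∧ 20000 * ∑ x ∈ X, (U.filter (fun v => v ≠ x ∧ ¬ h x v)).card ≤ n

/-- The number of uncovered non-neighbours of the `i`-th top vertex. -/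
def cst {V : Type} [DecidableEq V] (U : Finset V) (h : V → V → Prop) [DecidableRel h] (g : ℕ → V)
    (T D i : ℕ) : ℕ :=
  (U.filter (fun x => h x (g (T + 3 * D + i)) ∧ ((∃ k < 3 * D, x = g (T + k)) ∨
    (∃ k < i, x = g (T + 3 * D + k)) ∨ h x (g (T + i))))).card

/-- The special vertices, listed by `g`. -/
structure Dat {V : Type} [DecidableEq V] (U : Finset V) (h : V → V → Prop) [DecidableRel h]
    (c s D : ℕ) (g : ℕ → V) : Prop where
  mem : ∀ i < 2 * s + 2 * c + 6 * D, g i ∈ U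
  inj : ∀ i < 2 * s + 2 * c + 6 * D, ∀ j < 2 * s + 2 * c + 6 * D, g i = g j → i = j
  deg : ∀ v ∈ U, (∀ i < s, g i ≠ v) → (U.filter (h v)).card ≤ D
  par : ∀ i < s, h (g i) (g (s + 2 * c + i))
  bot : ∀ j, s + j < c → h (g (s + j)) (g (s + c + j))
  top : ∀ i < 3 * D, cst U h g (2 * s + 2 * c) D i + 2 ≤ c ∨
    (cst U h g (2 * s + 2 * c) D i + 1 ≤ c ∧ i + 1 < 3 * D ∧
      ¬ h (g (2 * s + 2 * c + i)) (g (2 * s + 2 * c + (i + 1))) ∧
      ¬ h (g (2 * s + 2 * c + i)) (g (2 * s + 2 * c + 3 * D + (i + 1))))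

/-- The size of the star of the `i`-th exceptional vertex. -/
def sg (s c : ℕ) (h : ℕ → ℕ → Prop) [DecidableRel h] (ω : ℕ → ℕ) (i : ℕ) : ℕ :=
  ((range i).filter (fun k => ¬ h i k)).card + ((Ico s (s + c)).filter (fun k => ¬ h i k)).card +
    ((Ioo i s).filter (fun k => ¬ h i k ∧ ¬ h i (ω k))).card

/-- The uncovered non-neighbours of the top position `N - m + j`. -/
def unc (N D m : ℕ) (h : ℕ → ℕ → Prop) [DecidableRel h] (j : ℕ) : Finset ℕ :=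
  (range (N - m + j)).filter (fun x => h x (N - m + j) ∧
    ((m - 3 * D ≤ x ∧ x < m) ∨ N - 3 * D ≤ x ∨ h x j))

/-- The ordered complement graph in the main case. -/
structure H1 (N n c s D B m : ℕ) (h : ℕ → ℕ → Prop) [DecidableRel h] (ω : ℕ → ℕ) : Prop where
  hs : ∀ u v, h u v → h v u
  hi : ∀ u, ¬ h u u
  hN : N = n + c
  hc : 2 ≤ c
  hcD : c ≤ D
  hsD : s ≤ D
  hB : 20 * D ≤ B
  hL : (s + 1) * (s + c) ≤ B
  hm : m = 150 * B
  hn : 500 * B ≤ n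
  hn' : n < 500 * B + 500
  hD : ∀ x, s ≤ x → x < N → ((range N).filter (h x)).card ≤ D
  hsum : ∑ x ∈ range N, ((range N).filter (h x)).card + n * (n + 1) = N * (N - 1)
  par : ∀ i < s, h i (ω i)
  pos : ∀ i < s, ω i = N - m - (3 * B + 2 * D) + (s + 1) * sg s c h ω i + i
  bot : ∀ j, s ≤ j → j < c → h j (N - m + j)
  top : ∀ j, m - 3 * D ≤ j → j < m → (unc N D m h j).card + 2 ≤ c ∨
    ((unc N D m h j).card + 1 ≤ c ∧ j + 1 < m ∧ ¬ h j (j + 1) ∧ ¬ h j (N - m + (j + 1)))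

/-- The ordered complement graph in the degenerate case. -/
structure H2 (N n c D Z : ℕ) (h : ℕ → ℕ → Prop) [DecidableRel h] : Prop where
  hs : ∀ u v, h u v → h v u
  hi : ∀ u, ¬ h u u
  hN : N = n + c
  hc : 1 ≤ c
  hZ : c - 1 ≤ Z
  num : Z + c * c + 3 * (D + c + 1) + 1 ≤ N
  hD : ∀ x, c - 1 ≤ x → x < N → ((range N).filter (h x)).card ≤ D
  hsum : ∑ x ∈ range N, ((range N).filter (h x)).card + n * (n + 1) = N * (N - 1)
  low : ∀ p, c - 1 ≤ p → p < N → ((range (c - 1)).filter (fun q => ¬ h p q)).card ≤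
    ((Ico (c - 1) p).filter (h p)).card
  full : ∀ p, Z ≤ p → p < N → ∀ q < N, (h p q ↔ q < c - 1)

/-- Two stars for every colour; the colour at `p` has `p + 1 - c` edges. -/
def Out2 (N c : ℕ) (h : ℕ → ℕ → Prop) : Prop := ∃ (x z : ℕ → ℕ) (A L : ℕ → Finset ℕ),
  (∀ p, c ≤ p → p < N → x p < N ∧ z p < N) ∧
  (∀ p, c ≤ p → p < N → ∀ y ∈ A p, y < N ∧ y ≠ x p ∧ ¬ h (x p) y) ∧
  (∀ p, c ≤ p → p < N → ∀ y ∈ L p, y < N ∧ y ≠ z p ∧ ¬ h (z p) y ∧ z p ≠ x p ∧ z p ∉ A p ∧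
    y ≠ x p ∧ y ∉ A p) ∧
  (∀ p, c ≤ p → p < N → (A p).card + (L p).card + c = p + 1) ∧
  (∀ p, c ≤ p → p + 1 < N → (A p).card ≤ (A (p + 1)).card ∧ (L p).card ≤ (L (p + 1)).card) ∧
  (∀ p, c ≤ p → p < N → ∀ q, c ≤ q → q < N → ∀ y ∈ A p, ∀ w ∈ A q,
    s(x p, y) = s(x q, w) → p = q) ∧
  (∀ p, c ≤ p → p < N → ∀ q, c ≤ q → q < N → ∀ y ∈ A p, ∀ w ∈ L q, s(x p, y) ≠ s(z q, w)) ∧
  ∀ p, c ≤ p → p < N → ∀ q, c ≤ q → q < N → ∀ y ∈ L p, ∀ w ∈ L q, s(z p, y) = s(z q, w) → p = q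

/-- The count of the non-edges outside `c - 1` vertices. -/
def IdS : Prop := ∀ (V : Type) [DecidableEq V] (U : Finset V) (h : V → V → Prop) [DecidableRel h]
    (n c : ℕ) (X : Finset V), G0 U h n c → X ⊆ U → X.card + 1 = c →
  ∑ v ∈ U \ X, ((U \ X).filter (h v)).card =
    2 * ∑ v ∈ U \ X, (X.filter (fun x => ¬ h v x)).card +
      ∑ x ∈ X, (X.filter (fun v => v ≠ x ∧ ¬ h x v)).card

/-- The second moment gap. -/
def GapS : Prop := ∀ (V : Type) [DecidableEq V] (U : Finset V) (h : V → V → Prop) [DecidableRel h]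
    (n c : ℕ) (X : Finset V), G0 U h n c → (∀ Y, ¬ Tiny U h n c Y) → X ⊆ U →
  10 ^ 6 * (c * X.card) ≤ n →
  ∑ x ∈ X, ((U \ X).filter (h x)).card ^ 2 + (U \ X).card * (n / 100000) ≤
    (c - 1) * (U \ X).card ^ 2

/-- The top vertices in the spread case. -/
def TopS : Prop := ∀ (V : Type) [DecidableEq V] (U : Finset V) (h : V → V → Prop) [DecidableRel h]
    (n c D : ℕ) (X F : Finset V), G0 U h n c → 2 ≤ c → X ⊆ F → F ⊆ U → F.card ≤ 4 * D →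
  10 ^ 13 * c ^ 2 * D ≤ n → (∀ v ∈ U \ X, (U.filter (h v)).card ≤ D) →
  ∑ x ∈ X, ((U \ X).filter (h x)).card ^ 2 + (U \ X).card * (n / 100000) ≤
    (c - 1) * (U \ X).card ^ 2 →
  ∃ t : ℕ → V, (∀ i < 6 * D, t i ∈ U \ F) ∧ (∀ i < 6 * D, ∀ j < 6 * D, t i = t j → i = j) ∧
    ∀ i < 3 * D, cst U h t 0 D i + 2 ≤ c

/-- The special vertices in the spread case. -/
def SelAS : Prop := ∀ (V : Type) [DecidableEq V] (U : Finset V) (h : V → V → Prop)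
    [DecidableRel h] (n c : ℕ), G0 U h n c → (∀ Y, ¬ Tiny U h n c Y) →
  ∃ (s D : ℕ) (g : ℕ → V), Dat U h c s D g ∧ 2 ≤ c ∧ c ≤ D ∧ s ≤ D ∧ 20 * D ≤ n / 500 ∧
    (s + 1) * (s + c) ≤ n / 500

/-- The special vertices in the nearly complete case. -/
def SelBS : Prop := ∀ (V : Type) [DecidableEq V] (U : Finset V) (h : V → V → Prop)
    [DecidableRel h] (n c : ℕ) (X : Finset V) (u x y y' : V), G0 U h n c → Tiny U h n c X →
  u ∈ U \ X → x ∈ X → ¬ h u x → y ∈ U \ X → y' ∈ U \ X → h y y' → y ≠ u → y' ≠ u →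
  ∃ g : ℕ → V, Dat U h c (c - 1) (n / 10000) g

/-- The order of the vertices in the degenerate case. -/
def Sel0S : Prop := ∀ (V : Type) [DecidableEq V] (U : Finset V) (h : V → V → Prop)
    [DecidableRel h] (n c : ℕ) (X : Finset V), G0 U h n c → Tiny U h n c X →
  (∀ u ∈ U \ X, ∀ x ∈ X, ¬ h u x → ∀ y ∈ U \ X, ∀ y' ∈ U \ X, h y y' → y = u ∨ y' = u) →
  ∃ (v : ℕ → V) (Z : ℕ), Set.BijOn v (range (n + c) : Finset ℕ) U ∧
    H2 (n + c) n c (n / 10000) Z (fun p q => h (v p) (v q))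

/-- From the special vertices to the order. -/
def PlaceS : Prop := ∀ (V : Type) [DecidableEq V] (U : Finset V) (h : V → V → Prop)
    [DecidableRel h] (n c s D : ℕ) (g : ℕ → V), G0 U h n c → Dat U h c s D g → 2 ≤ c → c ≤ D →
  s ≤ D → 20 * D ≤ n / 500 → (s + 1) * (s + c) ≤ n / 500 →
  ∃ (v : ℕ → V) (ω : ℕ → ℕ), Set.BijOn v (range (n + c) : Finset ℕ) U ∧
    H1 (n + c) n c s D (n / 500) (150 * (n / 500)) (fun p q => h (v p) (v q)) ω

/-- The stars in the degenerate case. -/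
def Core0S : Prop := ∀ (N n c D Z : ℕ) (h : ℕ → ℕ → Prop) [DecidableRel h],
  H2 N n c D Z h → Out2 N c h

end Pool.Agent.MP_f65396_co.h15o
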