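import Mathlib.Tactic.Linarith
import Mathlib.Tactic.Ring
import Mathlib.Algebra.Order.BigOperators.Group.Finset
import Mathlib.Algebra.BigOperators.Ring.Finset
import Pool.Agent.MP_f65396_co.h15o.Spec

/-! The count of non-edges and the second moment gap. -/

set_option autoImplicit false

namespace Pool.Agent.MP_f65396_co.h15o

open Finset

namespace IdGap

variable {V : Type} [DecidableEq V] {U X : Finset V} {h : V → V → Prop} [DecidableRel h]

lemma split (hX : X ⊆ U) (p : V → Prop) [DecidablePred p] :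
    (U.filter p).card = ((U \ X).filter p).card + (X.filter p).card := by
  simp only [card_filter, sum_sdiff hX]

omit [DecidableEq V] in
lemma swap (hs : ∀ u v, h u v → h v u) (A B : Finset V) :
    ∑ v ∈ A, (B.filter (h v)).card = ∑ x ∈ B, (A.filter (h x)).card := by
  simp only [card_filter]
  rw [sum_comm]
  exact sum_congr rfl fun x _ => sum_congr rfl fun v _ => if_congr ⟨hs _ _, hs _ _⟩ rfl rfl

lemma total (hX : X ⊆ U) (hs : ∀ u v, h u v → h v u) :
    ∑ u ∈ U, (U.filter (h u)).card = ∑ v ∈ U \ X, ((U \ X).filter (h v)).card +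
      2 * ∑ x ∈ X, ((U \ X).filter (h x)).card + ∑ x ∈ X, (X.filter (h x)).card := by
  rw [← sum_sdiff hX]
  simp only [split hX, sum_add_distrib, swap hs (U \ X) X]
  ring

lemma own (hi : ∀ u, ¬ h u u) {x : V} (hx : x ∈ X) :
    (X.filter (h x)).card + (X.filter fun v => v ≠ x ∧ ¬ h x v).card + 1 = X.card := by
  have e : X.filter (fun v => v ≠ x ∧ ¬ h x v) = (X.filter fun v => ¬ h x v).erase x := by
    ext v
    simp only [mem_filter, mem_erase]
    tauto
  rw [e, add_assoc, card_erase_add_one (mem_filter.2 ⟨hx, hi x⟩), card_filter_add_card_filter_not]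

end IdGap

open IdGap in
theorem idS : IdS := by
  intro V _ U h _ n c X G hX hc
  subst hc
  have h1 := card_sdiff_add_card_eq_card hX
  have h2 := G.hsum
  have h3 := sum_congr rfl fun v (_ : v ∈ U \ X) => card_filter_add_card_filter_not (s := X) (h v)
  have h4 := sum_congr rfl fun x (hx : x ∈ X) => own G.hi hx
  rw [total hX G.hs, ← add_assoc, Nat.add_sub_cancel] at h2
  rw [G.hU] at h1
  simp only [sum_add_distrib, sum_const, smul_eq_mul, swap G.hs (U \ X) X] at h3 h4
  rw [show (U \ X).card = n + 1 by omega] at h3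
  nlinarith

open IdGap in
theorem gap : GapS := by
  intro V _ U h _ n c X G hT hX he
  obtain ⟨a, rfl⟩ : ∃ a, c = a + 1 := ⟨c - 1, by have := G.hc; omega⟩
  by_contra hn
  rw [Nat.add_sub_cancel, not_le] at hn
  have h1 := card_sdiff_add_card_eq_card hX
  have h2 := G.hsum
  rw [total hX G.hs, ← add_assoc, Nat.add_sub_cancel] at h2
  rw [G.hU] at h1
  obtain ⟨k, hk⟩ : ∃ k : V → ℕ, ∀ x, ((U \ X).filter (h x)).card = k x := ⟨_, fun _ => rfl⟩
  obtain ⟨d, hd⟩ : ∃ d : V → ℕ, ∀ x, ((U \ X).filter fun v => ¬ h x v).card = d x :=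
    ⟨_, fun _ => rfl⟩
  have kd : ∀ x, k x + d x = (U \ X).card := fun x =>
    hk x ▸ hd x ▸ card_filter_add_card_filter_not _
  simp only [hk] at h2 hn
  set N := (U \ X).card with hN
  set Y := X.filter fun x => N ≤ 2 * k x with hY
  set Z := X.filter fun x => ¬ N ≤ 2 * k x with hZ
  have s1 : ∑ x ∈ Y, k x + ∑ x ∈ Z, k x = ∑ x ∈ X, k x := sum_filter_add_sum_filter_not _ _ _
  have s2 : ∑ x ∈ Y, k x ^ 2 + ∑ x ∈ Z, k x ^ 2 = ∑ x ∈ X, k x ^ 2 :=
    sum_filter_add_sum_filter_not _ _ _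
  have t1 := sum_le_sum fun x (hx : x ∈ Y) => show N * d x + 2 * k x ^ 2 ≤ 2 * (N * k x) by
    have := Nat.mul_le_mul_right (d x) (mem_filter.1 hx).2
    have := congrArg (k x * ·) (kd x)
    nlinarith
  have t2 := sum_le_sum fun x (hx : x ∈ Z) => show 2 * k x ^ 2 ≤ N * k x by
    have := Nat.mul_le_mul_right (k x) (not_le.1 (mem_filter.1 hx).2).le
    nlinarith
  have t3 := sum_congr rfl fun x (_ : x ∈ Y) => kd x
  have t4 := sum_le_card_nsmul Y _ _ fun x _ => Nat.pow_le_pow_left (Nat.le.intro (kd x)) 2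
  have t5 := sum_le_sum fun x (_ : x ∈ Y) =>
    show (U.filter fun v => v ≠ x ∧ ¬ h x v).card ≤ d x + X.card by
      rw [split hX, ← hd]
      exact Nat.add_le_add (card_le_card fun v hv =>
        mem_filter.2 ⟨(mem_filter.1 hv).1, (mem_filter.1 hv).2.2⟩) (card_filter_le _ _)
  simp only [sum_add_distrib, ← mul_sum, sum_const, smul_eq_mul] at t1 t2 t3 t4 t5
  have hD := Nat.div_mul_le_self n 100000
  rw [← s1] at h2
  rw [← s2] at hn
  clear s1 s2
  suffices Y.card = a ∧ ∑ x ∈ Y, d x < 2 * (a * X.card + n / 100000) from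
    hT Y ⟨(filter_subset _ _).trans hX, by rw [this.1], by
      rw [this.1] at t5
      rw [add_mul, one_mul] at he
      omega⟩
  clear t5 hT G
  generalize ∑ x ∈ Y, k x = K1, ∑ x ∈ Z, k x = K2, ∑ x ∈ Y, k x ^ 2 = P1, ∑ x ∈ Z, k x ^ 2 = P2,
    ∑ x ∈ Y, d x = D, Y.card = y, X.card = s, n / 100000 = Δ, ∑ x ∈ U \ X, k x = A,
    ∑ x ∈ X, (X.filter (h x)).card = B at *
  have u1 : K1 + K2 ≤ a * N + a * s := by
    have := congrArg (a * ·) h1
    nlinarith
  have u2 : D + K2 < 2 * (a * s + Δ) := by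
    refine Nat.lt_of_mul_lt_mul_left (a := N) ?_
    have := Nat.mul_le_mul_left N u1
    nlinarith
  rw [add_mul, one_mul] at he
  have u3 : y < a + 1 := by
    refine Nat.lt_of_mul_lt_mul_right (a := N) ?_
    rw [add_mul]
    omega
  have u4 : a < y + 1 := by
    by_contra u
    have v1 := Nat.mul_le_mul_right (N ^ 2) (not_lt.1 u)
    have v2 : N < K2 + Δ := by
      refine Nat.lt_of_mul_lt_mul_left (a := N) ?_
      nlinarith
    omega
  omega

end Pool.Agent.MP_f65396_co.h15o
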