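import Pool.Agent.MP_f65396_co.h15o.Spec
import Pool.Agent.MP_f65396_co.h15.Main

/-! The order of the vertices in the degenerate case. -/

set_option autoImplicit false

namespace Pool.Agent.MP_f65396_co.h15o

open Finset Pool.Agent.MP_f65396_co.h15

namespace Sel0

variable {V : Type} [DecidableEq V]

lemma sorted (key : V → ℕ) (v0 : V) : ∀ (N : ℕ) (U : Finset V), U.card = N →
    ∃ v : ℕ → V, Set.BijOn v (range N : Finset ℕ) U ∧
      ∀ p q, p ≤ q → q < N → key (v p) ≤ key (v q)
  | 0, U, h => ⟨fun _ => v0, by simp [card_eq_zero.1 h], fun _ _ _ h => by omega⟩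
  | N + 1, U, h => by
    obtain ⟨m, hm, mx⟩ := exists_max_image U key (card_pos.1 (by omega))
    obtain ⟨v, hv, mo⟩ := sorted key v0 N (U.erase m) (by rw [card_erase_of_mem hm]; omega)
    have a : ∀ p < N, v p ≠ m ∧ v p ∈ U := fun p hp =>
      mem_erase.1 (hv.mapsTo (mem_coe.2 (mem_range.2 hp)))
    refine ⟨fun p => if p < N then v p else m, ⟨fun p _ => ?_, fun p hp q hq e => ?_,
      fun u hu => ?_⟩, fun p q h1 h2 => ?_⟩
    · by_cases k : p < N
      · simpa [k] using (a p k).2
      · simpa [k] using hm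
    · have := mem_range.1 (mem_coe.1 hp)
      have := mem_range.1 (mem_coe.1 hq)
      by_cases k : p < N <;> by_cases l : q < N <;> simp only [k, l, if_true, if_false] at e
      · exact hv.injOn (mem_coe.2 (mem_range.2 k)) (mem_coe.2 (mem_range.2 l)) e
      · exact ((a p k).1 e).elim
      · exact ((a q l).1 e.symm).elim
      · omega
    · by_cases k : u = m
      · exact ⟨N, by simp, by simp [k]⟩
      · obtain ⟨p, hp, e⟩ := hv.surjOn (mem_coe.2 (mem_erase.2 ⟨k, hu⟩))
        have := mem_range.1 (mem_coe.1 hp)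
        exact ⟨p, mem_coe.2 (mem_range.2 (by omega)), by simp [this, e]⟩
    · by_cases l : q < N
      · simpa [l, h1.trans_lt l] using mo p q h1 l
      · by_cases k : p < N
        · simpa [k, l] using mx _ (a p k).2
        · simp [k, l]

lemma pos {key : V → ℕ} {N : ℕ} {U : Finset V} {v : ℕ → V}
    (hv : Set.BijOn v (range N : Finset ℕ) U) (mo : ∀ p q, p ≤ q → q < N → key (v p) ≤ key (v q))
    (j : ℕ) {p : ℕ} (hp : p < N) : key (v p) ≤ j ↔ p < (U.filter (fun u => key u ≤ j)).card := by
  rw [← filter_reindex hv]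
  constructor
  · intro h
    have : range (p + 1) ⊆ (range N).filter (fun x => key (v x) ≤ j) := fun q hq => by
      have := mem_range.1 hq
      exact mem_filter.2 ⟨mem_range.2 (by omega), (mo q p (by omega) hp).trans h⟩
    simpa using card_le_card this
  · intro h
    by_contra k
    have : (range N).filter (fun x => key (v x) ≤ j) ⊆ range p := fun q hq => by
      obtain ⟨h1, h2⟩ := mem_filter.1 hq
      by_contra l
      exact k ((mo p q (by simpa using l) (mem_range.1 h1)).trans h2)
    have := card_le_card this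
    rw [card_range] at this
    omega

variable {h : V → V → Prop} [DecidableRel h] {W : Finset V} {u : V}

lemma two_le (hs : ∀ u v, h u v → h v u) (hi : ∀ u, ¬ h u u) (hu : u ∈ W) :
    2 * (W.filter (h u)).card ≤ ∑ v ∈ W, (W.filter (h v)).card := by
  rw [← add_sum_erase W _ hu, two_mul]
  refine Nat.add_le_add_left ?_ _
  rw [card_eq_sum_ones]
  refine (sum_le_sum fun y hy => ?_).trans (sum_le_sum_of_subset fun y hy => ?_)
  · exact card_pos.2 ⟨u, mem_filter.2 ⟨hu, hs _ _ (mem_filter.1 hy).2⟩⟩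
  · exact mem_erase.2 ⟨fun e => hi u (e ▸ (mem_filter.1 hy).2), (mem_filter.1 hy).1⟩

lemma le_two (hs : ∀ u v, h u v → h v u) (hu : u ∈ W)
    (st : ∀ y ∈ W, ∀ y' ∈ W, h y y' → y = u ∨ y' = u) :
    ∑ v ∈ W, (W.filter (h v)).card ≤ 2 * (W.filter (h u)).card := by
  rw [← add_sum_erase W _ hu, two_mul]
  refine Nat.add_le_add_left ?_ _
  rw [card_filter (h u)]
  refine (sum_le_sum fun y hy => ?_).trans (sum_le_sum_of_subset (erase_subset _ _))
  obtain ⟨h1, h2⟩ := mem_erase.1 hy
  split_ifs with k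
  · exact card_le_one.2 fun a ha b hb =>
      ((st y h2 a (mem_filter.1 ha).1 (mem_filter.1 ha).2).resolve_left h1).trans
        ((st y h2 b (mem_filter.1 hb).1 (mem_filter.1 hb).2).resolve_left h1).symm
  · refine (card_eq_zero.2 (filter_eq_empty_iff.2 fun a ha e => k ?_)).le
    exact hs _ _ ((st y h2 a ha e).resolve_left h1 ▸ e)

omit [DecidableEq V] in
lemma card_pos_le (W : Finset V) (f : V → ℕ) :
    (W.filter (fun v => 0 < f v)).card ≤ ∑ v ∈ W, f v := by
  rw [card_filter]
  exact sum_le_sum fun v _ => by split_ifs <;> omega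

end Sel0

open Sel0 in
theorem sel0 (hi : IdS) : Sel0S := by
  intro V _ U h _ n c X G ⟨hX, hc, hd⟩ st
  have id := hi V U h n c X G hX hc
  set W := U \ X with hW
  set f : V → ℕ := fun v => (W.filter (h v)).card with hf
  set gg : V → ℕ := fun v => (X.filter (fun x => ¬ h v x)).card with hgg
  set d := ∑ x ∈ X, (U.filter (fun v => v ≠ x ∧ ¬ h x v)).card with hdd
  have d1 : ∑ v ∈ W, gg v + ∑ x ∈ X, (X.filter (fun v => v ≠ x ∧ ¬ h x v)).card ≤ d := by
    have : ∑ v ∈ W, gg v = ∑ x ∈ X, (W.filter (fun v => ¬ h v x)).card := by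
      simp only [hgg, card_filter]
      exact sum_comm
    rw [this, ← sum_add_distrib]
    refine sum_le_sum fun x hx => ?_
    rw [← card_union_of_disjoint (disjoint_filter_filter sdiff_disjoint)]
    refine card_le_card fun v hv => mem_filter.2 ?_
    rcases mem_union.1 hv with k | k
    · obtain ⟨k1, k2⟩ := mem_filter.1 k
      exact ⟨(mem_sdiff.1 k1).1, fun e => (mem_sdiff.1 k1).2 (e ▸ hx), fun e => k2 (G.hs _ _ e)⟩
    · exact ⟨hX (mem_filter.1 k).1, (mem_filter.1 k).2⟩
  have id' : ∑ v ∈ W, f v = 2 * ∑ v ∈ W, gg v +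
      ∑ x ∈ X, (X.filter (fun v => v ≠ x ∧ ¬ h x v)).card := id
  have s1 : 2 * ∑ v ∈ W, gg v ≤ ∑ v ∈ W, f v := by omega
  have s2 : ∑ v ∈ W, f v ≤ 2 * d := by omega
  have c1 : c * c ≤ c ^ 6 := by rw [← sq]; exact Nat.pow_le_pow_right G.hc (by norm_num)
  have c2 : c ≤ c * c := Nat.le_mul_self c
  have hn := G.hn
  have c0 := G.hc
  have gam : ∀ u ∈ W, 0 < gg u → ∀ y ∈ W, ∀ y' ∈ W, h y y' → y = u ∨ y' = u := fun u hu k => by
    obtain ⟨x, hx⟩ := card_pos.1 k
    exact st u hu x (mem_filter.1 hx).1 (mem_filter.1 hx).2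
  set key : V → ℕ := fun v => if v ∈ X then 0 else if 0 < gg v then 2 else if 0 < f v then 1 else 3
    with hkey
  obtain ⟨v0, -⟩ : U.Nonempty := card_pos.1 (by rw [G.hU]; omega)
  obtain ⟨v, hv, mo⟩ := sorted key v0 (n + c) U G.hU
  have vU : ∀ p < n + c, v p ∈ U := fun p hp => hv.mapsTo (mem_coe.2 (mem_range.2 hp))
  have k0 : ∀ p < n + c, (v p ∈ X ↔ p < c - 1) := fun p hp => by
    have e : U.filter (fun u => key u ≤ 0) = X := by
      ext u
      simp only [mem_filter, hkey]
      split_ifs with a <;> simp [a]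
      exact hX a
    have := pos hv mo 0 hp
    rw [e, show X.card = c - 1 by omega] at this
    rw [← this]
    simp only [hkey]
    split_ifs with a <;> simp [a]
  have vW : ∀ p, c - 1 ≤ p → p < n + c → v p ∈ W := fun p h1 h2 =>
    mem_sdiff.2 ⟨vU p h2, fun k => by have := (k0 p h2).1 k; omega⟩
  refine ⟨v, (U.filter (fun u => key u ≤ 2)).card, hv, fun _ _ => G.hs _ _, fun _ => G.hi _, rfl,
    c0, ?_, ?_, fun p h1 h2 => ?_, ?_, fun p h1 h2 => ?_, fun p h1 h2 q hq => ?_⟩
  · rw [show c - 1 = X.card by omega]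
    exact card_le_card fun u hu => mem_filter.2 ⟨hX hu, by simp [hkey, hu]⟩
  · have : U.filter (fun u => key u ≤ 2) ⊆
        X ∪ (W.filter (fun v => 0 < gg v) ∪ W.filter (fun v => 0 < f v)) := fun u hu => by
      obtain ⟨h1, h2⟩ := mem_filter.1 hu
      simp only [hkey] at h2
      simp only [mem_union, mem_filter, hW, mem_sdiff]
      split_ifs at h2 with a b e
      · exact Or.inl a
      · exact Or.inr (Or.inl ⟨⟨h1, a⟩, b⟩)
      · exact Or.inr (Or.inr ⟨⟨h1, a⟩, e⟩)
      · omega
    have h1 := (card_le_card this).trans ((card_union_le _ _).trans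
      (Nat.add_le_add_left (card_union_le _ _) _))
    have h2 := card_pos_le W gg
    have h3 := card_pos_le W f
    omega
  · rw [filter_reindex hv (h (v p))]
    have h3 : U.filter (h (v p)) ⊆ X ∪ W.filter (h (v p)) := fun y hy => by
      simp only [mem_union, mem_filter, hW, mem_sdiff] at hy ⊢
      tauto
    have h4 := (card_le_card h3).trans (card_union_le _ _)
    have h5 := two_le G.hs G.hi (vW p h1 h2)
    simp only [hf] at s2
    omega
  · rw [← G.hsum]
    congr 1
    exact sum_bij (fun x _ => v x) (fun x hx => hv.mapsTo hx)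
      (fun x hx y hy e => hv.injOn hx hy e) (fun u hu => by
        obtain ⟨x, x1, x2⟩ := hv.surjOn hu
        exact ⟨x, x1, x2⟩) (fun x _ => filter_reindex hv (h (v x)))
  · have hu := vW p h1 h2
    have l1 : ((range (c - 1)).filter (fun q => ¬ h (v p) (v q))).card ≤ gg (v p) :=
      card_le_card_of_injOn v (fun q hq => by
        obtain ⟨a, b⟩ := mem_filter.1 (mem_coe.1 hq)
        have := mem_range.1 a
        exact mem_coe.2 (mem_filter.2 ⟨(k0 q (by omega)).2 this, b⟩)) fun q hq r hr e => by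
        have := mem_range.1 (mem_filter.1 (mem_coe.1 hq)).1
        have := mem_range.1 (mem_filter.1 (mem_coe.1 hr)).1
        exact hv.injOn (mem_coe.2 (mem_range.2 (by omega))) (mem_coe.2 (mem_range.2 (by omega))) e
    rcases Nat.eq_zero_or_pos (gg (v p)) with k | k
    · omega
    have l2 := le_two G.hs hu (gam _ hu k)
    have l3 : gg (v p) ≤ ∑ v ∈ W, gg v := single_le_sum (fun _ _ => Nat.zero_le _) hu
    have l4 : (W.filter (h (v p))).card ≤ ((Ico (c - 1) p).filter (fun q => h (v p) (v q))).card := by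
      refine card_le_card_of_surjOn v fun y hy => ?_
      obtain ⟨y1, y2⟩ := mem_filter.1 (mem_coe.1 hy)
      obtain ⟨q, hq, rfl⟩ := hv.surjOn (mem_sdiff.1 y1).1
      have q1 := mem_range.1 (mem_coe.1 hq)
      have q2 := (mem_sdiff.1 y1).2
      have ne : v p ≠ v q := fun e => G.hi _ (e ▸ y2)
      have g0 : ¬ 0 < gg (v q) := fun k' => by
        have a1 : (W.filter (h (v p))).card ≤ 1 := card_le_one.2 fun a ha b hb =>
          ((gam _ y1 k' _ hu a (mem_filter.1 ha).1 (mem_filter.1 ha).2).resolve_left ne).trans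
            ((gam _ y1 k' _ hu b (mem_filter.1 hb).1 (mem_filter.1 hb).2).resolve_left ne).symm
        have a2 : gg (v p) + gg (v q) ≤ ∑ v ∈ W, gg v := by
          rw [← sum_pair ne]
          exact sum_le_sum_of_subset (by simp [insert_subset_iff, hu, y1])
        simp only [hf] at s1
        omega
      have f0 : 0 < f (v q) := card_pos.2 ⟨_, mem_filter.2 ⟨hu, G.hs _ _ y2⟩⟩
      refine ⟨q, mem_coe.2 (mem_filter.2 ⟨mem_Ico.2 ⟨?_, ?_⟩, y2⟩), rfl⟩
      · by_contra e
        exact q2 ((k0 q q1).2 (by omega))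
      · by_contra e
        have := mo p q (by omega) q1
        simp only [hkey, (mem_sdiff.1 hu).2, q2, k, g0, f0, if_true, if_false] at this
        omega
    simp only [hf] at s1
    omega
  · have a := (pos hv mo 2 h2).not.2 (by omega)
    simp only [hkey] at a
    split_ifs at a with a1 a2 a3 <;> try omega
    constructor
    · intro e
      by_contra l
      exact a3 (card_pos.2 ⟨_, mem_filter.2 ⟨vW q (by omega) hq, e⟩⟩)
    · intro e
      by_contra l
      exact a2 (card_pos.2 ⟨_, mem_filter.2 ⟨(k0 q hq).2 e, l⟩⟩)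

end Pool.Agent.MP_f65396_co.h15o
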