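import Pool.Agent.MP_f65396_co.h15o.Spec
import Pool.Agent.MP_f65396_co.h15.Sel
import Mathlib.Tactic.Positivity

/-! The special vertices in the spread case. -/

set_option autoImplicit false

namespace Pool.Agent.MP_f65396_co.h15o

open Finset Pool.Agent.MP_f65396_co.h15

namespace SelA

variable {V : Type} [DecidableEq V] {U : Finset V} {h : V → V → Prop} [DecidableRel h]

/-- `k` distinct members of `U` -/
def Sq (U : Finset V) (g : ℕ → V) (k : ℕ) : Prop :=
  (∀ i < k, g i ∈ U) ∧ ∀ i < k, ∀ j < k, g i = g j → i = j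

omit [DecidableEq V] in
lemma app {g f : ℕ → V} {a b : ℕ} (hg : Sq U g a) (hf : Sq U f b)
    (hd : ∀ i < a, ∀ j < b, g i ≠ f j) :
    ∃ e, Sq U e (a + b) ∧ (∀ i < a, e i = g i) ∧ ∀ i, e (a + i) = f i := by
  refine ⟨fun i => if i < a then g i else f (i - a), ⟨fun i hi => ?_, fun i hi j hj e => ?_⟩,
    fun i hi => if_pos hi, fun i => by simp⟩
  · dsimp only
    split_ifs with c
    exacts [hg.1 i c, hf.1 _ (by omega)]
  · dsimp only at e
    split_ifs at e with c d d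
    · exact hg.2 i c j d e
    · exact absurd e (hd i c _ (by omega))
    · exact absurd e.symm (hd j d _ (by omega))
    · have := hf.2 _ (by omega) _ (by omega) e
      omega

lemma ext {g : ℕ → V} {a : ℕ} (hg : Sq U g a) (Q : ℕ → Finset V) (b : ℕ)
    (hQ : ∀ i < b, Q i ⊆ U ∧ a + i < (Q i).card) :
    ∃ e, Sq U e (a + b) ∧ (∀ i < a, e i = g i) ∧ ∀ i < b, e (a + i) ∈ Q i := by
  induction b with
  | zero => exact ⟨g, hg, fun _ _ => rfl, fun i hi => absurd hi (Nat.not_lt_zero i)⟩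
  | succ b ih =>
    obtain ⟨e, h1, h2, h3⟩ := ih fun i hi => hQ i (by omega)
    obtain ⟨u, hu, hn⟩ := exists_mem_notMem_of_card_lt_card (s := (range (a + b)).image e)
      (t := Q b) ((card_image_le.trans (card_range _).le).trans_lt (hQ b (by omega)).2)
    obtain ⟨f, k1, k2, k3⟩ := app (f := fun _ => u) (b := 1) h1
      ⟨fun _ _ => (hQ b (by omega)).1 hu, fun _ _ _ _ _ => by omega⟩
      fun i hi _ _ c => hn (mem_image.2 ⟨i, mem_range.2 hi, c⟩)
    refine ⟨f, k1, fun i hi => (k2 i (by omega)).trans (h2 i hi), fun i hi => ?_⟩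
    rcases Nat.lt_succ_iff_lt_or_eq.1 hi with c | rfl
    · exact k2 _ (by omega : a + i < a + b) ▸ h3 i c
    · exact (k3 0 : f (a + i) = u) ▸ hu

lemma inside (hs : ∀ u v, h u v → h v u) {X : Finset V} (hX : X ⊆ U) :
    ∑ u ∈ U, (U.filter (h u)).card ≤
      ∑ u ∈ U \ X, ((U \ X).filter (h u)).card + 2 * ∑ u ∈ X, (U.filter (h u)).card := by
  have h1 := sum_sdiff (f := fun u => (U.filter (h u)).card) hX
  have h2 : ∑ u ∈ U \ X, (U.filter (h u)).card ≤ ∑ u ∈ U \ X,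
      (((U \ X).filter (h u)).card + (X.filter fun x => h x u).card) :=
    sum_le_sum fun u _ => (card_le_card fun x hx => by
      by_cases c : x ∈ X
      · exact mem_union_right _ (mem_filter.2 ⟨c, hs _ _ (mem_filter.1 hx).2⟩)
      · exact mem_union_left _ (mem_filter.2 ⟨mem_sdiff.2 ⟨(mem_filter.1 hx).1, c⟩,
          (mem_filter.1 hx).2⟩)).trans (card_union_le _ _)
  have h3 : ∑ u ∈ U \ X, (X.filter fun x => h x u).card ≤ ∑ u ∈ X, (U.filter (h u)).card :=
    (sum_le_sum_of_subset sdiff_subset).trans (Sel.double U X).le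
  rw [sum_add_distrib] at h2
  omega

lemma degs (hi : ∀ u, ¬ h u u) {X : Finset V} (hX : X ⊆ U) : ∑ u ∈ X, (U.filter (h u)).card +
    ∑ x ∈ X, (U.filter (fun v => v ≠ x ∧ ¬ h x v)).card + X.card ≤ X.card * U.card := by
  rw [← sum_add_distrib, card_eq_sum_ones X, ← sum_add_distrib, ← card_eq_sum_ones]
  refine sum_le_card_nsmul _ _ _ fun x hx => ?_
  rw [← card_union_of_disjoint (disjoint_filter.2 fun _ _ a b => b.2 a)]
  refine card_lt_card ⟨union_subset (filter_subset _ _) (filter_subset _ _), fun c => ?_⟩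
  rcases mem_union.1 (c (hX hx)) with d | d
  exacts [hi _ (mem_filter.1 d).2, (mem_filter.1 d).2.1 rfl]

lemma nums {n c s D : ℕ} (hc : 2 ≤ c) (hn : 10 ^ 31 * c ^ 6 ≤ n) (hD : D = n / (10 ^ 13 * c ^ 2))
    (hs : s * (D + 1) ≤ (c - 1) * (2 * n + c)) : 10 ^ 13 * c ^ 2 * D ≤ n ∧ 2 * s + 2 * c ≤ D ∧
      20 * D ≤ n / 500 ∧ (s + 1) * (s + c) ≤ n / 500 ∧ 10 ^ 6 * (c * s) ≤ n ∧ 4 * c * D ≤ n ∧
      20000 * (c * c) ≤ n := by
  have q : 0 < 10 ^ 13 * c ^ 2 := by positivity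
  have h1 : 10 ^ 13 * c ^ 2 * D ≤ n := hD ▸ Nat.mul_div_le _ _
  have h2 : n < 10 ^ 13 * c ^ 2 * (D + 1) := hD ▸ Nat.lt_mul_div_succ _ q
  have h3 : 10 ^ 18 * c ^ 4 ≤ D := hD ▸ (Nat.le_div_iff_mul_le q).2 (by linarith)
  have p : ∀ i j, i ≤ j → c ^ i ≤ c ^ j := fun i j e => Nat.pow_le_pow_right (by omega) e
  have p1 := p 1 3 (by omega)
  have p2 := p 3 4 (by omega)
  have p3 := p 4 6 (by omega)
  have p4 := p 2 4 (by omega)
  have p5 := p 1 2 (by omega)
  rw [pow_one] at p1 p5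
  have h4 : s < 3 * 10 ^ 13 * c ^ 3 := by
    refine Nat.lt_of_mul_lt_mul_right (a := D + 1) (hs.trans_lt ?_)
    have a : (c - 1) * (2 * n + c) ≤ c * (3 * n) := Nat.mul_le_mul (by omega) (by omega)
    have b := Nat.mul_lt_mul_of_pos_left h2 (show 0 < 3 * c by omega)
    linarith
  have h5 : (s + 1) * (s + c) ≤ 3 * 10 ^ 13 * c ^ 3 * (4 * 10 ^ 13 * c ^ 3) :=
    Nat.mul_le_mul h4 (by omega)
  have h6 := Nat.mul_le_mul_left c h4.le
  have h7 := Nat.mul_le_mul_right D p5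
  have h8 := Nat.mul_le_mul_right D hc
  refine ⟨h1, by omega, (Nat.le_div_iff_mul_le (by omega)).2 (by linarith),
    (Nat.le_div_iff_mul_le (by omega)).2 (by linarith), by linarith, by linarith, by linarith⟩

end SelA

open SelA

theorem selA (hg : GapS) (ht : TopS) : SelAS := by
  intro V _ U h _ n c G hT
  have hc : 2 ≤ c := by
    by_contra a
    exact hT ∅ ⟨empty_subset _, by have := G.hc; simp; omega, by simp⟩
  have hS : ∑ u ∈ U, (U.filter (h u)).card = (c - 1) * (2 * n + c) := by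
    have := G.hsum
    obtain ⟨e, rfl⟩ : ∃ e, c = e + 1 := ⟨c - 1, by omega⟩
    rw [show n + (e + 1) - 1 = n + e from rfl] at this
    rw [Nat.add_sub_cancel]
    linarith
  obtain ⟨D, hD⟩ : ∃ D, D = n / (10 ^ 13 * c ^ 2) := ⟨_, rfl⟩
  obtain ⟨X, hX⟩ : ∃ X, X = U.filter fun u => D + 1 ≤ (U.filter (h u)).card := ⟨_, rfl⟩
  have XU : X ⊆ U := hX ▸ filter_subset _ _
  have low : ∀ v ∈ U \ X, (U.filter (h v)).card ≤ D := fun v hv => by
    by_contra a
    exact (mem_sdiff.1 hv).2 (hX ▸ mem_filter.2 ⟨(mem_sdiff.1 hv).1, by omega⟩)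
  obtain ⟨s, hs⟩ : ∃ s, s = X.card := ⟨_, rfl⟩
  obtain ⟨n1, n2, n3, n4, n5, n6, n7⟩ := nums (s := s) hc G.hn hD (by
    rw [← hS, hs, hX]
    exact Sel.markov U _ _)
  have hU := G.hU
  have n8 : 2 * D ≤ n := by nlinarith
  obtain ⟨w0, -⟩ : U.Nonempty := card_pos.1 (by omega)
  obtain ⟨x, x1, -, x2⟩ := ext (U := U) (g := fun _ => w0) (a := 0) ⟨by simp, by simp⟩
    (fun _ => X) s fun i hi => ⟨XU, by omega⟩
  simp only [zero_add] at x1 x2
  have x3 : (range s).image x = X := eq_of_subset_of_card_le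
    (image_subset_iff.2 fun i hi => x2 i (mem_range.1 hi)) (by
      rw [card_image_of_injOn fun i hi j hj =>
        x1.2 i (mem_range.1 (mem_coe.1 hi)) j (mem_range.1 (mem_coe.1 hj)), card_range, hs])
  obtain ⟨k, hk⟩ : ∃ k, k = c - s := ⟨_, rfl⟩
  obtain ⟨a, b, hab, hd⟩ : ∃ a b : ℕ → V, (∀ i < k, a i ∈ U \ X ∧ b i ∈ U \ X ∧ h (a i) (b i)) ∧
      ∀ i < k, ∀ j < i, a i ≠ a j ∧ a i ≠ b j ∧ b i ≠ a j ∧ b i ≠ b j := by
    rcases Nat.eq_zero_or_pos k with rfl | k0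
    · exact ⟨x, x, by simp, by simp⟩
    refine Sel.pairs (D := D) w0 G.hs (fun u hu =>
      (card_le_card (filter_subset_filter _ sdiff_subset)).trans (low u hu)) ?_
    have i1 := inside G.hs XU
    have i2 := degs G.hi XU
    rw [hS] at i1
    rw [← hs, hU] at i2
    by_cases e : s + 1 = c
    · have i3 : n < 20000 * ∑ x ∈ X, (U.filter (fun v => v ≠ x ∧ ¬ h x v)).card :=
        not_le.1 fun f => hT X ⟨XU, hs ▸ e, f⟩
      obtain rfl : k = 1 := by omega
      subst e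
      rw [Nat.add_sub_cancel] at i1
      rw [Nat.sub_self, mul_zero, zero_mul]
      nlinarith [Nat.zero_le s, Nat.zero_le (s * s)]
    · obtain ⟨r, rfl⟩ : ∃ r, c = r + 2 := ⟨c - 2, by omega⟩
      rw [show r + 2 - 1 = r + 1 from rfl] at i1
      have i3 := Nat.mul_le_mul_right (n + (r + 2)) (show s ≤ r by omega)
      have i4 := Nat.mul_le_mul_right D (show 4 * (k - 1) ≤ 4 * (r + 2) by omega)
      nlinarith [Nat.zero_le r, Nat.zero_le (r * r), Nat.zero_le s,
        Nat.zero_le (∑ x ∈ X, (U.filter (fun v => v ≠ x ∧ ¬ h x v)).card)]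
  have A1 : ∀ i < k, ∀ j < k, (a i = a j → i = j) ∧ (b i = b j → i = j) ∧ a i ≠ b j := by
    intro i hi j hj
    rcases lt_trichotomy i j with hij | rfl | hij
    · have := hd j hj i hij
      exact ⟨fun e => absurd e.symm this.1, fun e => absurd e.symm this.2.2.2, this.2.2.1.symm⟩
    · exact ⟨fun _ => rfl, fun _ => rfl, fun e => G.hi _ (e ▸ (hab i hi).2.2)⟩
    · have := hd i hi j hij
      exact ⟨fun e => absurd e this.1, fun e => absurd e this.2.2.2, this.2.1⟩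
  obtain ⟨p, p1, p2, p3⟩ := app (U := U \ X) (g := a) (f := b) (a := k) (b := k)
    ⟨fun i hi => (hab i hi).1, fun i hi j hj => (A1 i hi j hj).1⟩
    ⟨fun i hi => (hab i hi).2.1, fun i hi j hj => (A1 i hi j hj).2.1⟩
    fun i hi j hj => (A1 i hi j hj).2.2
  obtain ⟨g₁, a1, a2, a3⟩ := app x1 ⟨fun i hi => (mem_sdiff.1 (p1.1 i hi)).1, p1.2⟩
    fun i hi j hj e => (mem_sdiff.1 (p1.1 j hj)).2 (e ▸ x2 i hi)
  obtain ⟨g₂, b1, b2, -⟩ := ext a1 (fun _ => U) (2 * (c - k)) fun i hi => ⟨Subset.rfl, by omega⟩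
  obtain ⟨g₃, c1, c2, c3⟩ := ext b1 (fun i => U.filter (h (x i))) s fun i hi =>
    ⟨filter_subset _ _, by have := (mem_filter.1 (hX ▸ x2 i hi)).2; omega⟩
  rw [show s + (k + k) + 2 * (c - k) = s + 2 * c by omega] at c2 c3 c1
  rw [show s + 2 * c + s = 2 * s + 2 * c by omega] at c1
  obtain ⟨π, hπ⟩ : ∃ π : ℕ → ℕ, ∀ i, π i = if s + k ≤ i ∧ i < s + c then i + k
    else if s + c ≤ i ∧ i < s + c + k then i - (c - k) else i := ⟨_, fun _ => rfl⟩
  have π1 : ∀ i < 2 * s + 2 * c, π i < 2 * s + 2 * c := fun i hi => by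
    rw [hπ]
    split_ifs <;> omega
  have d1 : Sq U (fun i => g₃ (π i)) (2 * s + 2 * c) := ⟨fun i hi => c1.1 _ (π1 i hi),
    fun i hi j hj e => by
      have := c1.2 _ (π1 i hi) _ (π1 j hj) e
      rw [hπ, hπ] at this
      split_ifs at this <;> omega⟩
  have e1 : ∀ i < s + (k + k), g₃ i = g₁ i := fun i hi => (c2 i (by omega)).trans (b2 i hi)
  have d2 : ∀ i < s, g₃ (π i) = x i := fun i hi => by
    rw [hπ, if_neg (by omega), if_neg (by omega), e1 i (by omega), a2 i hi]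
  obtain ⟨t, t1, t2, t3⟩ := ht V U h n c D X ((range (2 * s + 2 * c)).image fun i => g₃ (π i)) G hc
    (x3 ▸ image_subset_iff.2 fun i hi => mem_image.2 ⟨i, mem_range.2 (by
      have := mem_range.1 hi; omega), d2 i (mem_range.1 hi)⟩)
    (image_subset_iff.2 fun i hi => d1.1 i (mem_range.1 hi))
    ((card_image_le.trans (card_range _).le).trans (by omega)) n1 low (hg V U h n c X G hT XU (hs ▸ n5))
  obtain ⟨g, f1, f2, f3⟩ := app d1 ⟨fun i hi => (mem_sdiff.1 (t1 i hi)).1, t2⟩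
    fun i hi j hj e => (mem_sdiff.1 (t1 j hj)).2 (mem_image.2 ⟨i, mem_range.2 hi, e⟩)
  refine ⟨s, D, g, ⟨f1.1, f1.2, fun v hv hn => low v (mem_sdiff.2 ⟨hv, fun e => ?_⟩),
    fun i hi => ?_, fun j hj => ?_, fun i hi => Or.inl ?_⟩, hc, by omega, by omega, n3, n4⟩
  · obtain ⟨i, hi, rfl⟩ := mem_image.1 (x3 ▸ e)
    have := mem_range.1 hi
    exact hn i this ((f2 i (by omega)).trans (d2 i this))
  · rw [f2 i (by omega), f2 _ (by omega), d2 i hi, hπ, if_neg (by omega), if_neg (by omega)]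
    exact (mem_filter.1 (c3 i hi)).2
  · rw [f2 _ (by omega), f2 _ (by omega), hπ, hπ, if_neg (by omega), if_neg (by omega),
      if_neg (by omega), if_pos (by omega), show s + c + j - (c - k) = s + (k + j) by omega,
      e1 _ (by omega), e1 _ (by omega), a3, a3, p2 j (by omega), p3]
    exact (hab j (by omega)).2.2
  · have := t3 i hi
    simp only [cst, zero_add] at this
    simp only [cst, add_assoc (2 * s + 2 * c), f3]
    exact this

end Pool.Agent.MP_f65396_co.h15o
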