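import Pool.Agent.MP_f65396_co.h15o.Spec
import Mathlib.Data.Fintype.EquivFin
import Mathlib.Algebra.Order.BigOperators.Group.Finset
import Mathlib.Tactic.Linarith
import Mathlib.Tactic.Ring

/-! The special vertices in the nearly complete case. -/

set_option autoImplicit false

namespace Pool.Agent.MP_f65396_co.h15o

open Finset Pool.Agent.MP_f65396_co.h15

namespace SelB

/-- A list of the elements of a finite set. -/
lemma list {V : Type} (S : Finset V) (w0 : V) : ∃ a : ℕ → V, (∀ i < S.card, a i ∈ S) ∧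
    (∀ i < S.card, ∀ j < S.card, a i = a j → i = j) ∧ ∀ v ∈ S, ∃ i < S.card, a i = v := by
  refine ⟨fun i => if hi : i < S.card then (S.equivFin.symm ⟨i, hi⟩ : V) else w0,
    fun i hi => ?_, fun i hi j hj e => ?_, fun v hv => ?_⟩
  · simp only [dif_pos hi]
    exact (S.equivFin.symm _).2
  · simp only [dif_pos hi, dif_pos hj] at e
    exact congrArg Fin.val (S.equivFin.symm.injective (Subtype.ext e))
  · refine ⟨S.equivFin ⟨v, hv⟩, (S.equivFin ⟨v, hv⟩).2, ?_⟩
    simp only [dif_pos (S.equivFin ⟨v, hv⟩).2, Fin.eta, Equiv.symm_apply_apply]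

variable {V : Type} [DecidableEq V] {U X : Finset V} {h : V → V → Prop} [DecidableRel h]

/-- The missing pairs at `X` split by their second vertex. -/
lemma split (hs : ∀ u v, h u v → h v u) (hX : X ⊆ U) :
    ∑ v ∈ U \ X, (X.filter (fun x => ¬ h v x)).card +
      ∑ x ∈ X, (X.filter (fun v => v ≠ x ∧ ¬ h x v)).card ≤
      ∑ x ∈ X, (U.filter (fun v => v ≠ x ∧ ¬ h x v)).card := by
  have e : ∑ v ∈ U \ X, (X.filter (fun x => ¬ h v x)).card =
      ∑ x ∈ X, ((U \ X).filter (fun v => ¬ h v x)).card := by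
    simp only [card_filter]
    exact sum_comm
  rw [e, ← sum_add_distrib]
  refine sum_le_sum fun x hx => ?_
  rw [← card_union_of_disjoint]
  · refine card_le_card fun v hv => ?_
    rcases mem_union.1 hv with hv | hv
    · obtain ⟨h1, h2⟩ := mem_filter.1 hv
      obtain ⟨h3, h4⟩ := mem_sdiff.1 h1
      exact mem_filter.2 ⟨h3, fun e => h4 (e ▸ hx), fun h5 => h2 (hs _ _ h5)⟩
    · obtain ⟨h1, h2⟩ := mem_filter.1 hv
      exact mem_filter.2 ⟨hX h1, h2⟩
  · exact disjoint_left.2 fun v h1 h2 =>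
      (mem_sdiff.1 (mem_filter.1 h1).1).2 (mem_filter.1 h2).1

/-- A degree is at most half of the sum of the degrees. -/
lemma half (W : Finset V) (hs : ∀ u v, h u v → h v u) (hi : ∀ u, ¬ h u u) {v : V} (hv : v ∈ W) :
    2 * (W.filter (h v)).card ≤ ∑ w ∈ W, (W.filter (h w)).card := by
  have h1 : v ∉ W.filter (h v) := fun e => hi _ (mem_filter.1 e).2
  have h2 : insert v (W.filter (h v)) ⊆ W := insert_subset hv (filter_subset _ _)
  have h3 := sum_le_sum_of_subset (f := fun w => (W.filter (h w)).card) h2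
  rw [sum_insert h1] at h3
  have h4 : (W.filter (h v)).card * 1 ≤ ∑ w ∈ W.filter (h v), (W.filter (h w)).card :=
    card_nsmul_le_sum _ _ 1 fun w hw =>
      card_pos.2 ⟨v, mem_filter.2 ⟨hv, hs _ _ (mem_filter.1 hw).2⟩⟩
  omega

/-- Degrees outside `X`. -/
lemma degle (v : V) : (U.filter (h v)).card ≤ X.card + ((U \ X).filter (h v)).card := by
  refine le_trans (card_le_card fun z hz => ?_) (card_union_le _ _)
  obtain ⟨h1, h2⟩ := mem_filter.1 hz
  by_cases h3 : z ∈ X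
  · exact mem_union_left _ h3
  · exact mem_union_right _ (mem_filter.2 ⟨mem_sdiff.2 ⟨h1, h3⟩, h2⟩)

/-- Many vertices are joined exactly to `X`. -/
lemma full : ∃ F : Finset V, (∀ v ∈ F, v ∈ U \ X ∧ ∀ z ∈ U, (h v z ↔ z ∈ X)) ∧
    (U \ X).card ≤ F.card + (∑ v ∈ U \ X, ((U \ X).filter (h v)).card +
      ∑ v ∈ U \ X, (X.filter (fun x => ¬ h v x)).card) := by
  refine ⟨(U \ X).filter fun v => ((U \ X).filter (h v)).card +
    (X.filter (fun x => ¬ h v x)).card = 0, fun v hv => ?_, ?_⟩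
  · obtain ⟨h1, h2⟩ := mem_filter.1 hv
    refine ⟨h1, fun z hz => ⟨fun h3 => ?_, fun h3 => ?_⟩⟩
    · by_contra h4
      have : 0 < ((U \ X).filter (h v)).card :=
        card_pos.2 ⟨z, mem_filter.2 ⟨mem_sdiff.2 ⟨hz, h4⟩, h3⟩⟩
      omega
    · by_contra h4
      have : 0 < (X.filter (fun x => ¬ h v x)).card := card_pos.2 ⟨z, mem_filter.2 ⟨h3, h4⟩⟩
      omega
  · rw [← sum_add_distrib, card_filter, ← sum_add_distrib, card_eq_sum_ones]
    refine sum_le_sum fun v _ => ?_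
    split_ifs <;> omega

end SelB

theorem selB (hi : IdS) : SelBS := by
  intro V _ U h _ n c X u x y y' G T hu hx hux hy hy' hyy hyu hyu'
  obtain ⟨hXU, hXc, hd⟩ := T
  have hId := hi V U h n c X G hXU hXc
  have hsp := SelB.split (h := h) G.hs hXU
  obtain ⟨F, hF, hFc⟩ := SelB.full (U := U) (X := X) (h := h)
  have hW : (U \ X).card + X.card = n + c := by
    rw [card_sdiff_add_card_eq_card hXU, G.hU]
  have hX1 : 0 < X.card := card_pos.2 ⟨x, hx⟩
  have hcn : 10 ^ 31 * c ≤ n :=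
    le_trans (Nat.mul_le_mul_left _ (Nat.le_self_pow (by omega) c)) G.hn
  obtain ⟨D, hD⟩ : ∃ D, D = n / 10000 := ⟨_, rfl⟩
  obtain ⟨s, hs⟩ : ∃ s, s = c - 1 := ⟨_, rfl⟩
  rw [← hD, ← hs]
  have hsX : s = X.card := by omega
  have hD1 : 1 ≤ D := by omega
  have hFM : 2 * s + 2 * c + 6 * D ≤ F.card := by omega
  obtain ⟨a, ha1, ha2, ha3⟩ := SelB.list X u
  obtain ⟨r, hr1, hr2, -⟩ := SelB.list F u
  rw [← hsX] at ha1 ha2 ha3
  have huF : u ∉ F := fun e => hux (((hF u e).2 x (hXU hx)).2 hx)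
  have hyF : y ∉ F := fun e =>
    (mem_sdiff.1 hy').2 (((hF y e).2 y' (mem_sdiff.1 hy').1).1 hyy)
  have hyF' : y' ∉ F := fun e =>
    (mem_sdiff.1 hy).2 (((hF y' e).2 y (mem_sdiff.1 hy).1).1 (G.hs _ _ hyy))
  have hne : y ≠ y' := fun e => G.hi y (by rw [← e] at hyy; exact hyy)
  obtain ⟨g, hg⟩ : ∃ g : ℕ → V, g = fun i => if i < s then a i else if i = s then y else
    if i = s + c then y' else if i + 1 = 2 * s + 2 * c + 6 * D then u else r i := ⟨_, rfl⟩
  have g1 : ∀ i < s, g i = a i := fun i hi => by rw [hg]; exact if_pos hi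
  have g2 : g s = y := by
    rw [hg]
    simp only [if_neg (lt_irrefl s), if_true]
  have g3 : g (s + c) = y' := by
    rw [hg]
    simp only [if_neg (show ¬ s + c < s by omega), if_neg (show ¬ s + c = s by omega), if_true]
  have g4 : ∀ i, i + 1 = 2 * s + 2 * c + 6 * D → g i = u := fun i hi => by
    rw [hg]
    simp only [if_neg (show ¬ i < s by omega), if_neg (show ¬ i = s by omega),
      if_neg (show ¬ i = s + c by omega), if_pos hi]
  have g5 : ∀ i, s < i → i ≠ s + c → i + 1 < 2 * s + 2 * c + 6 * D → g i = r i :=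
    fun i h1 h2 h3 => by
      rw [hg]
      simp only [if_neg (show ¬ i < s by omega), if_neg (show ¬ i = s by omega), if_neg h2,
        if_neg (show ¬ i + 1 = 2 * s + 2 * c + 6 * D by omega)]
  have cs : ∀ i < 2 * s + 2 * c + 6 * D, (i < s ∧ g i = a i ∧ g i ∈ X) ∨ (i = s ∧ g i = y) ∨
      (i = s + c ∧ g i = y') ∨ (i + 1 = 2 * s + 2 * c + 6 * D ∧ g i = u) ∨
      (g i = r i ∧ g i ∈ F) := fun i hi => by
    rcases lt_trichotomy i s with h1 | h1 | h1
    · exact Or.inl ⟨h1, g1 i h1, g1 i h1 ▸ ha1 i h1⟩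
    · exact Or.inr (Or.inl ⟨h1, h1 ▸ g2⟩)
    · by_cases h2 : i = s + c
      · exact Or.inr (Or.inr (Or.inl ⟨h2, h2 ▸ g3⟩))
      · by_cases h3 : i + 1 = 2 * s + 2 * c + 6 * D
        · exact Or.inr (Or.inr (Or.inr (Or.inl ⟨h3, g4 i h3⟩)))
        · have e := g5 i h1 h2 (by omega)
          exact Or.inr (Or.inr (Or.inr (Or.inr ⟨e, e ▸ hr1 i (by omega)⟩)))
  have gF : ∀ i, s + c < i → i + 1 < 2 * s + 2 * c + 6 * D → g i ∈ F := fun i h1 h2 =>
    g5 i (by omega) (by omega) h2 ▸ hr1 i (by omega)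
  have gW : ∀ i, s + c < i → i < 2 * s + 2 * c + 6 * D → g i ∈ U \ X := fun i h1 h2 => by
    by_cases h3 : i + 1 = 2 * s + 2 * c + 6 * D
    · exact g4 i h3 ▸ hu
    · exact (hF _ (gF i h1 (by omega))).1
  have nadj : ∀ v ∈ F, ∀ z ∈ U \ X, ¬ h v z := fun v hv z hz e =>
    (mem_sdiff.1 hz).2 (((hF v hv).2 z (mem_sdiff.1 hz).1).1 e)
  have FX : ∀ v ∈ F, v ∉ X := fun v hv => (mem_sdiff.1 (hF v hv).1).2
  have huX := (mem_sdiff.1 hu).2
  have hyX := (mem_sdiff.1 hy).2
  have hyX' := (mem_sdiff.1 hy').2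
  refine ⟨g, fun i hi => ?_, fun i hi j hj e => ?_, fun v hv hn => ?_, fun i hi => ?_,
    fun j hj => ?_, fun i hi => ?_⟩
  · rcases cs i hi with h1 | h1 | h1 | h1 | h1
    · exact hXU h1.2.2
    · exact h1.2 ▸ (mem_sdiff.1 hy).1
    · exact h1.2 ▸ (mem_sdiff.1 hy').1
    · exact h1.2 ▸ (mem_sdiff.1 hu).1
    · exact (mem_sdiff.1 (hF _ h1.2).1).1
  · rcases cs i hi with h1 | h1 | h1 | h1 | h1 <;> rcases cs j hj with h2 | h2 | h2 | h2 | h2
    · exact ha2 i h1.1 j h2.1 (h1.2.1.symm.trans (e.trans h2.2.1))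
    · exact absurd ((e.trans h2.2) ▸ h1.2.2) hyX
    · exact absurd ((e.trans h2.2) ▸ h1.2.2) hyX'
    · exact absurd ((e.trans h2.2) ▸ h1.2.2) huX
    · exact absurd (e ▸ h1.2.2) (FX _ h2.2)
    · exact absurd ((e.symm.trans h1.2) ▸ h2.2.2) hyX
    · omega
    · exact absurd (h1.2.symm.trans (e.trans h2.2)) hne
    · exact absurd (h1.2.symm.trans (e.trans h2.2)) hyu
    · exact absurd ((e.symm.trans h1.2) ▸ h2.2) hyF
    · exact absurd ((e.symm.trans h1.2) ▸ h2.2.2) hyX'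
    · exact absurd (h1.2.symm.trans (e.trans h2.2)) hne.symm
    · omega
    · exact absurd (h1.2.symm.trans (e.trans h2.2)) hyu'
    · exact absurd ((e.symm.trans h1.2) ▸ h2.2) hyF'
    · exact absurd ((e.symm.trans h1.2) ▸ h2.2.2) huX
    · exact absurd (h1.2.symm.trans (e.trans h2.2)) hyu.symm
    · exact absurd (h1.2.symm.trans (e.trans h2.2)) hyu'.symm
    · omega
    · exact absurd ((e.symm.trans h1.2) ▸ h2.2) huF
    · exact absurd (e.symm ▸ h2.2.2) (FX _ h1.2)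
    · exact absurd ((e.trans h2.2) ▸ h1.2) hyF
    · exact absurd ((e.trans h2.2) ▸ h1.2) hyF'
    · exact absurd ((e.trans h2.2) ▸ h1.2) huF
    · exact hr2 i (by omega) j (by omega) (h1.1.symm.trans (e.trans h2.1))
  · have hvX : v ∉ X := fun e => by
      obtain ⟨i, hi, rfl⟩ := ha3 v e
      exact hn i hi (g1 i hi)
    have h1 := SelB.degle (U := U) (X := X) (h := h) v
    have h2 := SelB.half (U \ X) G.hs G.hi (mem_sdiff.2 ⟨hv, hvX⟩)
    omega
  · have h1 : g i ∈ X := g1 i hi ▸ ha1 i hi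
    exact G.hs _ _ (((hF _ (gF (s + 2 * c + i) (by omega) (by omega))).2 _ (hXU h1)).2 h1)
  · obtain rfl : j = 0 := by omega
    rw [Nat.add_zero, Nat.add_zero, g2, g3]
    exact hyy
  · have h0 : g (2 * s + 2 * c + i) ∈ F := gF _ (by omega) (by omega)
    by_cases h1 : i + 1 < 3 * D
    · refine Or.inr ⟨?_, h1, nadj _ h0 _ (gW _ (by omega) (by omega)),
        nadj _ h0 _ (gW _ (by omega) (by omega))⟩
      have h2 : cst U h g (2 * s + 2 * c) D i ≤ X.card := card_le_card fun z hz => by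
        obtain ⟨h3, h4, -⟩ := mem_filter.1 hz
        exact ((hF _ (gF (2 * s + 2 * c + 3 * D + i) (by omega) (by omega))).2 z h3).1
          (G.hs _ _ h4)
      omega
    · refine Or.inl ?_
      have h2 : cst U h g (2 * s + 2 * c) D i ≤ (X.erase x).card := card_le_card fun z hz => by
        obtain ⟨h3, h4, h5⟩ := mem_filter.1 hz
        rw [g4 (2 * s + 2 * c + 3 * D + i) (by omega)] at h4
        refine mem_erase.2 ⟨fun e => hux (G.hs _ _ (e ▸ h4)), ?_⟩
        rcases h5 with ⟨k, hk, e⟩ | ⟨k, hk, e⟩ | h5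
        · exact absurd h4 (nadj z (e ▸ gF _ (by omega) (by omega)) u hu)
        · exact absurd h4 (nadj z (e ▸ gF _ (by omega) (by omega)) u hu)
        · exact ((hF _ h0).2 z h3).1 (G.hs _ _ h5)
      rw [card_erase_of_mem hx] at h2
      omega

end Pool.Agent.MP_f65396_co.h15o
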