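import Pool.Agent.MP_f65396_co.h15o.Spec
import Pool.Agent.MP_f65396_co.h15.Sel

/-! From the list of special vertices to the order of all vertices. -/

set_option autoImplicit false

namespace Pool.Agent.MP_f65396_co.h15o

open Finset Pool.Agent.MP_f65396_co.h15

namespace Place

lemma extend {V : Type} [DecidableEq V] {U : Finset V} {N K : ℕ} (hU : U.card = N) (g : ℕ → V)
    (p : ℕ → ℕ) (hm : ∀ i < K, g i ∈ U) (hi : ∀ i < K, ∀ j < K, g i = g j → i = j)
    (hp : ∀ i < K, p i < N) (hq : ∀ i < K, ∀ j < K, p i = p j → i = j) :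
    ∃ v : ℕ → V, Set.BijOn v (range N : Finset ℕ) U ∧ ∀ i < K, v (p i) = g i := by
  have hq' : Set.InjOn p {i | i < K} := fun i a j b e => hq i a j b e
  have hl : ∀ i < K, Function.invFunOn p {i | i < K} (p i) = i := fun i a =>
    hq'.leftInvOn_invFunOn a
  obtain ⟨v, hv, hvg⟩ := Sel.extend hU (p '' {i | i < K})
    (fun x => g (Function.invFunOn p {i | i < K} x)) (by
      rintro x ⟨i, a, rfl⟩
      rw [hl i a]
      exact hm i a) (by
      rintro x ⟨i, a, rfl⟩ y ⟨j, b, rfl⟩ e
      simp only [hl i a, hl j b] at e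
      rw [hi i a j b e])
  exact ⟨v, hv, fun i a => by rw [hvg _ ⟨i, a, rfl⟩ (hp i a), hl i a]⟩

lemma reindex {V : Type} [DecidableEq V] {U : Finset V} {N : ℕ} {v : ℕ → V}
    (hv : Set.BijOn v (range N : Finset ℕ) U) (p : V → Prop) [DecidablePred p] :
    ((range N).filter (fun x => p (v x))).card = (U.filter p).card := by
  refine card_bij (fun x _ => v x) (fun x hx => ?_) (fun x hx y hy e => ?_) (fun u hu => ?_)
  · exact mem_filter.2 ⟨hv.mapsTo (mem_filter.1 hx).1, (mem_filter.1 hx).2⟩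
  · exact hv.injOn (mem_filter.1 hx).1 (mem_filter.1 hy).1 e
  · obtain ⟨x, x1, rfl⟩ := hv.surjOn (mem_filter.1 hu).1
    exact ⟨x, mem_filter.2 ⟨x1, (mem_filter.1 hu).2⟩, rfl⟩

/-- The star size computed from the list. -/
def sig {V : Type} (h : V → V → Prop) [DecidableRel h] (g : ℕ → V) (s c i : ℕ) : ℕ :=
  ((range i).filter (fun k => ¬ h (g i) (g k))).card +
    ((Ico s (s + c)).filter (fun k => ¬ h (g i) (g k))).card +
    ((Ioo i s).filter (fun k => ¬ h (g i) (g k) ∧ ¬ h (g i) (g (s + 2 * c + k)))).card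

lemma sig_lt {V : Type} (h : V → V → Prop) [DecidableRel h] (g : ℕ → V) {s c i : ℕ} (hi : i < s) :
    sig h g s c i + 1 ≤ s + c := by
  have a1 := card_filter_le (range i) (fun k => ¬ h (g i) (g k))
  have a2 := card_filter_le (Ico s (s + c)) (fun k => ¬ h (g i) (g k))
  have a3 := card_filter_le (Ioo i s) (fun k => ¬ h (g i) (g k) ∧ ¬ h (g i) (g (s + 2 * c + k)))
  rw [card_range] at a1
  rw [Nat.card_Ico] at a2
  rw [Nat.card_Ioo] at a3
  unfold sig
  omega

lemma mod_inj {s a b i j : ℕ} (hi : i < s) (hj : j < s)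
    (e : (s + 1) * a + i = (s + 1) * b + j) : i = j := by
  have := congrArg (· % (s + 1)) e
  simp only [Nat.mul_add_mod] at this
  rwa [Nat.mod_eq_of_lt (by omega), Nat.mod_eq_of_lt (by omega)] at this

/-- The position of the `i`-th special vertex. -/
def pos (N m s c D : ℕ) (ω : ℕ → ℕ) (i : ℕ) : ℕ :=
  if i < s + c then i else if i < s + 2 * c then N - m + (i - c) else
    if i < 2 * s + 2 * c then ω (i - (s + 2 * c)) else
      if i < 2 * s + 2 * c + 3 * D then m - 3 * D + (i - (2 * s + 2 * c)) else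
        N - 3 * D + (i - (2 * s + 2 * c + 3 * D))

lemma order {V : Type} [DecidableEq V] {U : Finset V} {N m s c D : ℕ} (hU : U.card = N)
    (g : ℕ → V) (ω : ℕ → ℕ) (hm : ∀ i < 2 * s + 2 * c + 6 * D, g i ∈ U)
    (hi : ∀ i < 2 * s + 2 * c + 6 * D, ∀ j < 2 * s + 2 * c + 6 * D, g i = g j → i = j)
    (h1 : s + c + 3 * D ≤ m) (h2 : 2 * m ≤ N) (h3 : ∀ i < s, m ≤ ω i ∧ ω i < N - m)
    (h4 : ∀ i < s, ∀ j < s, ω i = ω j → i = j) :
    ∃ v : ℕ → V, Set.BijOn v (range N : Finset ℕ) U ∧ (∀ i < s + c, v i = g i) ∧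
      (∀ j < c, v (N - m + (s + j)) = g (s + c + j)) ∧ (∀ i < s, v (ω i) = g (s + 2 * c + i)) ∧
      (∀ k < 3 * D, v (m - 3 * D + k) = g (2 * s + 2 * c + k)) ∧
      ∀ k < 3 * D, v (N - 3 * D + k) = g (2 * s + 2 * c + 3 * D + k) := by
  obtain ⟨v, hv, hg⟩ := extend hU g (pos N m s c D ω) hm hi (fun i a => by
    have := h3 (i - (s + 2 * c))
    unfold pos
    split_ifs <;> omega) (fun i a j b e => by
    have a1 := h3 (i - (s + 2 * c))
    have a2 := h3 (j - (s + 2 * c))
    have a3 := fun x y => h4 (i - (s + 2 * c)) x (j - (s + 2 * c)) y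
    unfold pos at e
    split_ifs at e <;> omega)
  refine ⟨v, hv, fun i a => ?_, fun j a => ?_, fun i a => ?_, fun k a => ?_, fun k a => ?_⟩
  · rw [← hg i (by omega), pos, if_pos a]
  · rw [← hg _ (by omega), pos, if_neg (by omega), if_pos (by omega)]
    congr 2
    omega
  · rw [← hg _ (by omega), pos, if_neg (by omega), if_neg (by omega), if_pos (by omega),
      Nat.add_sub_cancel_left]
  · rw [← hg _ (by omega), pos, if_neg (by omega), if_neg (by omega), if_neg (by omega),
      if_pos (by omega), Nat.add_sub_cancel_left]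
  · rw [← hg _ (by omega), pos, if_neg (by omega), if_neg (by omega), if_neg (by omega),
      if_neg (by omega), Nat.add_sub_cancel_left]

end Place

open Place in
theorem place : PlaceS := by
  intro V _ U h _ n c s D g G d hc hcD hsD hB hL
  obtain ⟨B, eB⟩ : ∃ B, B = n / 500 := ⟨_, rfl⟩
  rw [← eB] at hB hL ⊢
  obtain ⟨m, em⟩ : ∃ m, m = 150 * B := ⟨_, rfl⟩
  rw [← em]
  have hU := G.hU
  have hsum := G.hsum
  obtain ⟨N, eN⟩ : ∃ N, N = n + c := ⟨_, rfl⟩
  rw [← eN] at hU hsum ⊢
  obtain ⟨ω, eω⟩ : ∃ ω : ℕ → ℕ,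
      ω = fun i => N - m - (3 * B + 2 * D) + ((s + 1) * sig h g s c i + i) := ⟨_, rfl⟩
  have w1 : ∀ i < s, (s + 1) * sig h g s c i + i < B := by
    intro i a
    have := Nat.mul_le_mul_left (s + 1) (sig_lt h g (c := c) a)
    rw [Nat.mul_add, Nat.mul_one] at this
    omega
  obtain ⟨v, hv, v1, v2, v3, v4, v5⟩ := order (m := m) hU g ω d.mem d.inj (by omega) (by omega)
    (fun i a => by
      have := w1 i a
      simp only [eω]
      omega)
    (fun i a j b e => by
      simp only [eω] at e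
      exact mod_inj a b (Nat.add_left_cancel e))
  have r : ∀ x, x < N → x ∈ ((range N : Finset ℕ) : Set ℕ) := fun x a => mem_coe.2 (mem_range.2 a)
  refine ⟨v, ω, hv, fun p q a => G.hs _ _ a, fun p => G.hi _, eN, hc, hcD, hsD, hB, hL, em,
    by omega, by omega, fun x a b => ?_, ?_, fun i a => ?_, fun i a => ?_, fun j a b => ?_,
    fun j a b => ?_⟩
  · rw [reindex hv (h (v x))]
    refine d.deg _ (hv.mapsTo (r x b)) fun i i1 e => ?_
    rw [← v1 i (by omega)] at e
    have := hv.injOn (r i (by omega)) (r x b) e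
    omega
  · rw [← hsum]
    congr 1
    refine sum_nbij v (fun x hx => hv.mapsTo hx) hv.injOn hv.surjOn fun x _ => ?_
    exact reindex hv (h (v x))
  · show h (v i) (v (ω i))
    rw [v1 i (by omega), v3 i a]
    exact d.par i a
  · have e : sg s c (fun p q => h (v p) (v q)) ω i = sig h g s c i := by
      unfold sg sig
      congr 1
      · congr 1
        · refine congrArg card (filter_congr fun k hk => ?_)
          have := mem_range.1 hk
          simp only [v1 i (by omega), v1 k (by omega)]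
        · refine congrArg card (filter_congr fun k hk => ?_)
          have := mem_Ico.1 hk
          simp only [v1 i (by omega), v1 k (by omega)]
      · refine congrArg card (filter_congr fun k hk => ?_)
        have := mem_Ioo.1 hk
        simp only [v1 i (by omega), v1 k (by omega), v3 k this.2]
    rw [e, eω]
    exact (Nat.add_assoc _ _ _).symm
  · obtain ⟨k, rfl⟩ : ∃ k, j = s + k := ⟨j - s, by omega⟩
    show h (v (s + k)) (v (N - m + (s + k)))
    rw [v1 _ (by omega), v2 k (by omega)]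
    exact d.bot k b
  · obtain ⟨i, rfl⟩ : ∃ i, j = m - 3 * D + i := ⟨j - (m - 3 * D), by omega⟩
    have hi : i < 3 * D := by omega
    have e1 : N - m + (m - 3 * D + i) = N - 3 * D + i := by omega
    have u : (unc N D m (fun p q => h (v p) (v q)) (m - 3 * D + i)).card ≤
        cst U h g (2 * s + 2 * c) D i := by
      unfold unc cst
      rw [e1]
      refine card_le_card_of_injOn v (fun x hx => ?_) (hv.injOn.mono fun x hx => ?_)
      · obtain ⟨hx1, hx2, hx3⟩ := mem_filter.1 (mem_coe.1 hx)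
        have hx4 := mem_range.1 hx1
        simp only [v4 i hi, v5 i hi] at hx2 hx3
        refine mem_coe.2 (mem_filter.2 ⟨hv.mapsTo (r x (by omega)), hx2, ?_⟩)
        rcases hx3 with hx3 | hx3 | hx3
        · obtain ⟨k, rfl⟩ : ∃ k, x = m - 3 * D + k := ⟨x - (m - 3 * D), by omega⟩
          exact Or.inl ⟨k, by omega, v4 k (by omega)⟩
        · obtain ⟨k, rfl⟩ : ∃ k, x = N - 3 * D + k := ⟨x - (N - 3 * D), by omega⟩
          exact Or.inr (Or.inl ⟨k, by omega, v5 k (by omega)⟩)
        · exact Or.inr (Or.inr hx3)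
      · have := mem_range.1 (mem_filter.1 (mem_coe.1 hx)).1
        exact r x (by omega)
    rcases d.top i hi with t | ⟨t1, t2, t3, t4⟩
    · exact Or.inl (by omega)
    · refine Or.inr ⟨by omega, by omega, ?_, ?_⟩
      · show ¬ h (v (m - 3 * D + i)) (v (m - 3 * D + i + 1))
        rw [v4 i hi, Nat.add_assoc (m - 3 * D), v4 _ t2]
        exact t3
      · show ¬ h (v (m - 3 * D + i)) (v (N - m + (m - 3 * D + i + 1)))
        rw [v4 i hi, show N - m + (m - 3 * D + i + 1) = N - 3 * D + (i + 1) by omega, v5 _ t2]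
        exact t4

end Pool.Agent.MP_f65396_co.h15o
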