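import Pool.Agent.MP_f65396_co.h15o.Spec
import Pool.Agent.MP_f65396_co.h15.Ori

/-! Orientation with prescribed out-degrees and exceptional sinks. -/

set_option autoImplicit false

namespace Pool.Agent.MP_f65396_co.h15o

open Finset Pool.Agent.MP_f65396_co.h15

open h15.Ori in
theorem ori2 : Ori2S := by
  intro N s m m2 B E K σ R al a w h1 h2 h0 h3 h4 h5 h6 h7 h8 h9 hs h10 h10' h11
  refine hall N al a (fun x hx h => (h1 x hx x h).2 rfl) fun T hT => ?_
  have hTN : ∀ y ∈ T, y < N := fun y hy => mem_range.1 (hT hy)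
  obtain ⟨S, hS⟩ : ∃ S, S = range N \ T := ⟨_, rfl⟩
  have hSN : ∀ x ∈ S, x < N ∧ x ∉ T := fun x hx => by
    rw [hS, mem_sdiff, mem_range] at hx
    exact hx
  refine le_trans ?_ (count al T S fun x hx => (hSN x hx).2)
  by_cases hp : 2 * K ≤ (S.filter fun x => N - m2 ≤ x).card
  · refine sum_le_sum fun y hy => ?_
    have hy' := hTN y hy
    rcases lt_or_ge y s with hy0 | hy0
    · rw [h0 y hy0]
      exact Nat.zero_le _
    rcases le_or_gt (N - m2) y with h | h
    · exact (h6 y h hy').trans (Nat.le_add_right _ _)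
    · have a1 : (range y).card ≤ (nat al y).card + K := cover (h2 y hy0 hy') fun x hx hx' => by
        have hxy := mem_range.1 hx
        simp only [mem_filter, mem_range, not_and, not_not, not_forall] at hx'
        obtain ⟨b1, -⟩ := hx' (hxy.trans hy')
        exact mem_filter.2 ⟨b1, Or.inl hxy⟩
      have a2 : (S.filter fun x => N - m2 ≤ x).card ≤ (S.filter (fr al y)).card + K :=
        cover (h2 y hy0 hy') fun x hx hx' => by
          obtain ⟨b1, b2⟩ := mem_filter.1 hx
          simp only [mem_filter, mem_range, not_and, not_not, not_forall] at hx'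
          obtain ⟨b3, b4⟩ := hx' (hSN x b1).1
          exact mem_filter.2 ⟨b1, by omega, b3, b4⟩
      have a3 := h9 y hy'
      rw [card_range] at a1
      omega
  rw [sum_add_distrib, swap]
  rw [← sum_sdiff hT, ← sum_sdiff hT, ← hS] at h3
  suffices h : ∑ x ∈ S, (nat al x).card ≤
      ∑ x ∈ S, a x + ∑ x ∈ S, (T.filter fun y => fr al y x).card by omega
  by_cases hq : K + σ ≤ (T.filter fun y => y < m).card
  · rw [← sum_add_distrib]
    refine sum_le_sum fun x hx => ?_
    have hx' := (hSN x hx).1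
    rcases lt_or_ge x m with h | h
    · exact (h4 x h).trans (Nat.le_add_right _ _)
    · have a1 : (T.filter fun y => y < m).card ≤ (T.filter fun y => fr al y x).card + K :=
        cover (h2 x (hs.trans h) hx') fun y hy hy' => by
          obtain ⟨b1, b2⟩ := mem_filter.1 hy
          simp only [mem_filter, mem_range, not_and, not_not, not_forall] at hy'
          obtain ⟨b3, b4⟩ := hy' (hTN y b1)
          exact mem_filter.2 ⟨b1, by omega, b4, b3⟩
      have a2 := h7 x h hx'
      omega
  rcases h11 with h11 | h11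
  swap
  · have a3 : (Ico (N - m2) m).card ≤ (T.filter fun y => y < m).card + 2 * K :=
      cover (not_le.1 hp).le fun x hx hx' => by
        obtain ⟨b1, b2⟩ := mem_Ico.1 hx
        refine mem_filter.2 ⟨by_contra fun h => hx' (mem_filter.2 ⟨?_, b1⟩), b2⟩
        rw [hS, mem_sdiff, mem_range]
        exact ⟨by omega, h⟩
    rw [Nat.card_Ico] at a3
    omega
  refine le_trans ?_ (Nat.le_add_right _ _)
  have a1 : ∑ x ∈ S, ((nat al x).card + if B ≤ x ∧ x < m then E else 0) ≤
      ∑ x ∈ S, (a x + ((if m ≤ x ∧ x < N - m2 then w x else 0) + if N - m2 ≤ x then σ else 0)) := by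
    refine sum_le_sum fun x hx => ?_
    have hx' := (hSN x hx).1
    have b1 := h4 x
    have b2 := h5 x
    have b3 := h7 x
    split_ifs <;> omega
  rw [sum_add_distrib, sum_add_distrib, sum_add_distrib, ← sum_filter, ← sum_filter, ← sum_filter,
    sum_const, sum_const, smul_eq_mul, smul_eq_mul] at a1
  have a2 : ∑ x ∈ S.filter (fun x => m ≤ x ∧ x < N - m2), w x ≤ R :=
    (sum_le_sum_of_subset fun x hx => mem_Ico.2 (mem_filter.1 hx).2).trans h8
  have a3 : (Ico B m).card ≤ (S.filter fun x => B ≤ x ∧ x < m).card + (K + σ) :=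
    cover (not_le.1 hq).le fun x hx hx' => by
      obtain ⟨b1, b2⟩ := mem_Ico.1 hx
      refine mem_filter.2 ⟨?_, b1, b2⟩
      rw [hS, mem_sdiff, mem_range]
      exact ⟨by omega, fun h => hx' (mem_filter.2 ⟨h, b2⟩)⟩
  rw [Nat.card_Ico] at a3
  have a4 : E * m ≤ E * ((S.filter fun x => B ≤ x ∧ x < m).card + (B + K + σ)) :=
    Nat.mul_le_mul_left _ (by omega)
  have a5 : (S.filter fun x => N - m2 ≤ x).card * σ ≤ 2 * K * σ :=
    Nat.mul_le_mul_right _ (not_le.1 hp).le
  rw [mul_add, mul_comm E (Finset.card _)] at a4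
  omega

end Pool.Agent.MP_f65396_co.h15o
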