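import Pool.Agent.MP_f65396_co.h15o.Spec
import Mathlib.Algebra.Order.BigOperators.Group.Finset
import Mathlib.Algebra.BigOperators.Ring.Finset
import Mathlib.Tactic.Linarith
import Mathlib.Tactic.Ring
import Mathlib.Tactic.Positivity

/-! The top vertices in the spread case. -/

set_option autoImplicit false

namespace Pool.Agent.MP_f65396_co.h15o

open Finset

namespace Top

variable {V : Type} [DecidableEq V]

/-- The number of uncovered non-neighbours of `u`. -/
def cost (U : Finset V) (h : V → V → Prop) [DecidableRel h] (S : Finset V) (y u : V) : ℕ :=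
  (U.filter (fun x => h x u ∧ (x ∈ S ∨ h x y))).card

theorem greedy (m : ℕ) (P : V → Prop) (Q : Finset V → V → V → Prop) (t0 : ℕ → V)
    (hP : ∀ i < m, P (t0 i)) (hI : ∀ i < m, ∀ j < m, t0 i = t0 j → i = j)
    (step : ∀ S : Finset V, S.card ≤ 2 * m → (∀ x ∈ S, P x) → ∀ i < m,
      ∃ u, P u ∧ u ∉ S ∧ Q S (t0 i) u) :
    ∀ j ≤ m, ∃ t : ℕ → V, (∀ k < m, t k = t0 k) ∧ (∀ i < m + j, P (t i)) ∧
      (∀ i < m + j, ∀ k < m + j, t i = t k → i = k) ∧
      ∀ i < j, Q ((range (m + i)).image t) (t i) (t (m + i)) := by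
  intro j
  induction j with
  | zero => exact fun _ => ⟨t0, fun _ _ => rfl, hP, hI, fun i hi => absurd hi (Nat.not_lt_zero i)⟩
  | succ j ih =>
    intro hj
    obtain ⟨t, h0, h1, h2, h3⟩ := ih (by omega)
    obtain ⟨u, hu1, hu2, hu3⟩ := step ((range (m + j)).image t)
      (card_image_le.trans (by rw [card_range]; omega))
      (fun x hx => by
        obtain ⟨k, hk, rfl⟩ := mem_image.1 hx
        exact h1 k (mem_range.1 hk)) j (by omega)
    have e1 : ∀ k < m + j, Function.update t (m + j) u k = t k := fun k hk =>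
      Function.update_of_ne (by omega) _ _
    have e2 : Function.update t (m + j) u (m + j) = u := Function.update_self _ _ _
    have e3 : ∀ i ≤ j, (range (m + i)).image (Function.update t (m + j) u) =
        (range (m + i)).image t := fun i hi =>
      image_congr (fun k hk => e1 k (by have := mem_range.1 (mem_coe.1 hk); omega))
    have nu : ∀ k < m + j, t k ≠ u := fun k hk e => hu2 (mem_image.2 ⟨k, mem_range.2 hk, e⟩)
    refine ⟨Function.update t (m + j) u, fun k hk => (e1 k (by omega)).trans (h0 k hk),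
      fun i hi => ?_, fun i hi k hk e => ?_, fun i hi => ?_⟩
    · rcases Nat.lt_or_ge i (m + j) with h | h
      · rw [e1 i h]; exact h1 i h
      · obtain rfl : i = m + j := by omega
        rw [e2]; exact hu1
    · rcases Nat.lt_or_ge i (m + j) with h | h <;> rcases Nat.lt_or_ge k (m + j) with h' | h'
      · rw [e1 i h, e1 k h'] at e; exact h2 i h k h' e
      · obtain rfl : k = m + j := by omega
        rw [e1 i h, e2] at e; exact absurd e (nu i h)
      · obtain rfl : i = m + j := by omega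
        rw [e1 k h', e2] at e; exact absurd e.symm (nu k h')
      · omega
    · rw [e3 i (by omega), e1 i (by omega)]
      rcases Nat.lt_or_ge i j with h | h
      · rw [e1 (m + i) (by omega)]; exact h3 i h
      · obtain rfl : i = j := by omega
        rw [e2, h0 i (by omega)]; exact hu3

theorem swap (A B : Finset V) (r : V → V → Prop) [DecidableRel r] (w : V → ℕ) :
    ∑ y ∈ B, ∑ x ∈ A.filter (fun x => r x y), w x = ∑ x ∈ A, (B.filter (r x)).card * w x := by
  simp only [sum_filter]
  rw [sum_comm]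
  refine sum_congr rfl fun x _ => ?_
  rw [← sum_filter, sum_const, smul_eq_mul]

theorem cost_sum (U X S : Finset V) (h : V → V → Prop) [DecidableRel h] (y : V) (D κ : ℕ)
    (hs : ∀ u v, h u v → h v u) (hD : ∀ v ∈ U \ X, (U.filter (h v)).card ≤ D)
    (hS : ∀ x ∈ S, (U.filter (h x)).card ≤ κ) (hy : (U.filter (h y)).card ≤ κ) :
    ∑ u ∈ U \ X, cost U h S y u ≤ S.card * κ +
      ∑ x ∈ X.filter (fun x => h x y), ((U \ X).filter (h x)).card + κ * D := by
  have le1 : ∀ x, ((U \ X).filter (h x)).card ≤ (U.filter (h x)).card := fun x =>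
    card_le_card (filter_subset_filter _ sdiff_subset)
  have a1 : ∀ u, cost U h S y u ≤ ∑ _x ∈ S.filter (fun x => h x u), 1 +
      ∑ _x ∈ (X.filter (fun x => h x y)).filter (fun x => h x u), 1 +
      ∑ _x ∈ ((U \ X).filter (fun x => h x y)).filter (fun x => h x u), 1 := by
    intro u
    simp only [← card_eq_sum_ones]
    refine le_trans (card_le_card ?_) ((card_union_le _ _).trans
      (Nat.add_le_add_right (card_union_le _ _) _))
    intro x hx
    simp only [mem_filter, mem_union, mem_sdiff] at hx ⊢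
    by_cases hX : x ∈ X <;> tauto
  refine (sum_le_sum fun u _ => a1 u).trans ?_
  rw [sum_add_distrib, sum_add_distrib, swap, swap, swap]
  simp only [mul_one]
  refine Nat.add_le_add (Nat.add_le_add ?_ le_rfl) ?_
  · exact (sum_le_card_nsmul _ _ κ fun x hx => (le1 x).trans (hS x hx)).trans (by simp)
  · refine (sum_le_card_nsmul _ _ D fun x hx =>
      (le1 x).trans (hD x (mem_filter.1 hx).1)).trans ?_
    rw [smul_eq_mul]
    refine Nat.mul_le_mul_right _ (le_trans (card_le_card ?_) hy)
    intro x hx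
    rw [mem_filter] at hx ⊢
    exact ⟨(mem_sdiff.1 hx.1).1, hs _ _ hx.2⟩

theorem markov (W : Finset V) (f : V → ℕ) (a : ℕ) (p : V → Prop) [DecidablePred p]
    (hp : ∀ v ∈ W, p v → a ≤ f v) : (W.filter p).card * a ≤ ∑ v ∈ W, f v := by
  refine le_trans ?_ (sum_le_sum_of_subset (filter_subset p W))
  rw [← smul_eq_mul]
  exact card_nsmul_le_sum _ _ _ fun v hv => hp v (mem_filter.1 hv).1 (mem_filter.1 hv).2

end Top

open Top

theorem top : TopS := by
  intro V _ U h _ n c D X F G hc hXF hFU hF hn hD hgap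
  obtain ⟨b, rfl⟩ : ∃ b, c = b + 1 := ⟨c - 1, by omega⟩
  have hb : 1 ≤ b := by omega
  rw [Nat.add_sub_cancel] at hgap
  have hcn : 10 ^ 31 * (b + 1) ≤ n :=
    le_trans (Nat.mul_le_mul_left _ (Nat.le_self_pow (by norm_num) _)) G.hn
  have hsum : ∑ u ∈ U, (U.filter (h u)).card ≤ 3 * (b + 1) * n := by
    have := G.hsum
    rw [show n + (b + 1) - 1 = n + b by omega] at this
    nlinarith
  set κ := 3 * 10 ^ 6 * (b + 1) ^ 2 with hκ
  set High := U.filter (fun v => κ < (U.filter (h v)).card) with hHigh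
  have hH : 10 ^ 6 * ((b + 1) * High.card) ≤ n := by
    have h1 := (markov U (fun v => (U.filter (h v)).card) κ
      (fun v => κ < (U.filter (h v)).card) (fun v _ hv => hv.le)).trans hsum
    rw [← hHigh] at h1
    refine Nat.le_of_mul_le_mul_left (c := 3 * (b + 1)) ?_ (by omega)
    calc 3 * (b + 1) * (10 ^ 6 * ((b + 1) * High.card)) = High.card * κ := by rw [hκ]; ring
      _ ≤ _ := h1
  set W := U \ X with hW
  set Δ := n / 100000 with hΔ
  have hD1 : 10 ^ 13 * ((b + 1) * D) ≤ n := by
    refine le_trans ?_ hn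
    rw [mul_assoc]
    exact Nat.mul_le_mul_left _ (Nat.mul_le_mul_right _ (Nat.le_self_pow (by norm_num) _))
  have hD2 : 10 ^ 13 * (κ * D) ≤ 3 * 10 ^ 6 * n := by
    calc 10 ^ 13 * (κ * D) = 3 * 10 ^ 6 * (10 ^ 13 * (b + 1) ^ 2 * D) := by rw [hκ]; ring
      _ ≤ _ := Nat.mul_le_mul_left _ hn
  have hWc : n + (b + 1) ≤ W.card + 4 * D := by
    have h1 := card_le_card hXF
    have h2 := card_sdiff_add_card_eq_card (hXF.trans hFU)
    have h3 := G.hU
    rw [← hW] at h2
    omega
  have hW0 : 0 < W.card := by nlinarith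
  set φ : V → ℕ := fun y => ∑ x ∈ X.filter (fun x => h x y), (W.filter (h x)).card with hφ
  have hφs : ∑ y ∈ W, φ y + W.card * Δ ≤ b * W.card ^ 2 := by
    rw [hφ, swap]
    simpa only [← sq] using hgap
  set Good := W.filter (fun y => 2 * φ y + Δ ≤ 2 * b * W.card) with hGood
  have hG : Δ ≤ 2 * b * Good.card := by
    have h1 := markov W (fun y => 2 * φ y + Δ) (2 * b * W.card)
      (fun y => ¬ (2 * φ y + Δ ≤ 2 * b * W.card)) (fun v _ hv => (not_le.1 hv).le)
    have h2 := card_filter_add_card_filter_not (s := W) (fun y => 2 * φ y + Δ ≤ 2 * b * W.card)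
    rw [← hGood] at h2
    rw [sum_add_distrib, ← mul_sum, sum_const, smul_eq_mul] at h1
    refine Nat.le_of_mul_le_mul_left (c := W.card) ?_ hW0
    generalize (W.filter (fun y => ¬ (2 * φ y + Δ ≤ 2 * b * W.card))).card = z at h1 h2
    have h3 : b * W.card ^ 2 = b * W.card * (Good.card + z) := by rw [h2]; ring
    nlinarith
  have hT : 3 * D ≤ (Good \ (High ∪ F)).card := by
    have h1 := le_card_sdiff (High ∪ F) Good
    have h2 := card_union_le High F
    by_contra hlt
    have h3 : Good.card ≤ High.card + 7 * D := by omega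
    have h4 : 2 * b * Good.card ≤ 2 * (b + 1) * (High.card + 7 * D) :=
      Nat.mul_le_mul (by omega) h3
    have h5 : 2 * (b + 1) * (High.card + 7 * D) =
        2 * ((b + 1) * High.card) + 14 * ((b + 1) * D) := by ring
    omega
  obtain ⟨T, hT1, hT2⟩ := exists_subset_card_eq hT
  obtain ⟨v0, _⟩ := card_pos.1 hW0
  set t0 : ℕ → V := fun i => if hi : i < T.card then (T.equivFin.symm ⟨i, hi⟩ : V) else v0
    with ht0
  have m0 : ∀ i < 3 * D, t0 i ∈ T := fun i hi => by
    have hi' : i < T.card := by omega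
    simp only [ht0, dif_pos hi']
    exact Subtype.mem _
  have i0 : ∀ i < 3 * D, ∀ j < 3 * D, t0 i = t0 j → i = j := fun i hi j hj e => by
    have hi' : i < T.card := by omega
    have hj' : j < T.card := by omega
    simp only [ht0, dif_pos hi', dif_pos hj'] at e
    exact Fin.mk.inj (T.equivFin.symm.injective (Subtype.ext e))
  have p0 : ∀ i < 3 * D, t0 i ∈ Good ∧ t0 i ∈ U \ F ∧ (U.filter (h (t0 i))).card ≤ κ := by
    intro i hi
    have h1 := mem_sdiff.1 (hT1 (m0 i hi))
    have h2 : t0 i ∈ U := (mem_sdiff.1 (mem_filter.1 h1.1).1).1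
    rw [mem_union, not_or] at h1
    exact ⟨h1.1, mem_sdiff.2 ⟨h2, h1.2.2⟩, not_lt.1 fun hh => h1.2.1 (mem_filter.2 ⟨h2, hh⟩)⟩
  obtain ⟨t, _, h1, h2, h3⟩ := greedy (3 * D) (fun u => u ∈ U \ F ∧ (U.filter (h u)).card ≤ κ)
    (fun S y u => cost U h S y u + 2 ≤ b + 1) t0 (fun i hi => (p0 i hi).2) i0 (by
      intro S hS hSP i hi
      obtain ⟨g1, _, g3⟩ := p0 i hi
      have c1 := cost_sum U X S h (t0 i) D κ G.hs hD (fun x hx => (hSP x hx).2) g3
      have c2 := markov W (cost U h S (t0 i)) b (fun u => b ≤ cost U h S (t0 i) u)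
        (fun _ _ hv => hv)
      have c3 : 2 * φ (t0 i) + Δ ≤ 2 * b * W.card := (mem_filter.1 g1).2
      have c4 : S.card * κ ≤ 6 * (κ * D) := by
        calc S.card * κ ≤ 2 * (3 * D) * κ := Nat.mul_le_mul_right _ hS
          _ = _ := by ring
      rw [← hW] at c1
      change _ ≤ _ + φ (t0 i) + _ at c1
      by_contra hno
      have sub : W ⊆ W.filter (fun u => b ≤ cost U h S (t0 i) u) ∪ (High ∪ (F ∪ S)) := by
        intro u hu
        by_contra hu'
        simp only [mem_union, not_or] at hu'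
        have hU : u ∈ U := (mem_sdiff.1 hu).1
        refine hno ⟨u, ⟨mem_sdiff.2 ⟨hU, hu'.2.2.1⟩,
          not_lt.1 fun hh => hu'.2.1 (mem_filter.2 ⟨hU, hh⟩)⟩, hu'.2.2.2, ?_⟩
        have : ¬ b ≤ cost U h S (t0 i) u := fun hh => hu'.1 (mem_filter.2 ⟨hu, hh⟩)
        omega
      have c5 := (card_le_card sub).trans ((card_union_le _ _).trans
        (Nat.add_le_add_left ((card_union_le _ _).trans
          (Nat.add_le_add_left (card_union_le _ _) _)) _))
      generalize (W.filter (fun u => b ≤ cost U h S (t0 i) u)).card = z at c2 c5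
      have c6 : W.card ≤ z + (High.card + 10 * D) := by omega
      have c7 : b * W.card ≤ b * (z + (High.card + 10 * D)) := Nat.mul_le_mul_left _ c6
      have c8 : b * (z + (High.card + 10 * D)) + High.card + 10 * D =
          z * b + (b + 1) * High.card + 10 * ((b + 1) * D) := by ring
      have c9 : 2 * b * W.card = 2 * (b * W.card) := by ring
      omega) (3 * D) le_rfl
  refine ⟨t, fun i hi => (h1 i (by omega)).1, fun i hi j hj => h2 i (by omega) j (by omega),
    fun i hi => le_trans (Nat.add_le_add_right (card_le_card ?_) 2) (h3 i hi)⟩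
  intro x hx
  simp only [mem_filter, zero_add, mem_image, mem_range] at hx ⊢
  refine ⟨hx.1, hx.2.1, ?_⟩
  rcases hx.2.2 with ⟨k, hk, e⟩ | ⟨k, hk, e⟩ | e
  · exact Or.inl ⟨k, by omega, e.symm⟩
  · exact Or.inl ⟨3 * D + k, by omega, e.symm⟩
  · exact Or.inr e

end Pool.Agent.MP_f65396_co.h15o
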