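import Pool.Agent.MP_f65396_co.h15o.Cor4
import Pool.Agent.MP_f65396_co.h15o.Ori2
import Pool.Agent.MP_f65396_co.h15o.IdGap
import Pool.Agent.MP_f65396_co.h15o.Top
import Pool.Agent.MP_f65396_co.h15o.SelA
import Pool.Agent.MP_f65396_co.h15o.SelB
import Pool.Agent.MP_f65396_co.h15o.Sel0
import Pool.Agent.MP_f65396_co.h15o.Place
import Pool.Agent.MP_f65396_co.h15o.Core0
import Pool.Agent.MP_f65396_co.h15.Asm
import Mathlib.Combinatorics.SimpleGraph.DegreeSum

/-! Ascending decompositions into star forests for graphs of small order. -/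

set_option autoImplicit false

namespace Pool.Agent.MP_f65396_co.h15o

open Finset
open Pool.Agent.MP_f65396_co.h15 (Dec asm)

theorem transfer {V : Type} [Fintype V] [DecidableEq V] (G : SimpleGraph V) (n c : ℕ)
    (hE : G.edgeSet.ncard = n * (n + 1) / 2) (v : ℕ → V)
    (hv : ∀ p < n + c, ∀ q < n + c, v p = v q → p = q) (h : ℕ → ℕ → Prop)
    (hg : ∀ p < n + c, ∀ q < n + c, q ≠ p → ¬ h p q → G.Adj (v p) (v q))
    (O : Out2 (n + c) c h) : Dec G n := by
  obtain ⟨x, z, A, L, o1, o2, o3, o4, o5, o6, o7, o8⟩ := O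
  have r1 : ∀ t, c ≤ t + c := fun t => by omega
  have r2 : ∀ t < n, t + c < n + c := fun t ht => by omega
  have cA : ∀ t < n, ((A (t + c)).image v).card = (A (t + c)).card := fun t ht =>
    card_image_of_injOn fun a ha b hb e =>
      hv a (o2 _ (r1 t) (r2 t ht) a ha).1 b (o2 _ (r1 t) (r2 t ht) b hb).1 e
  have cL : ∀ t < n, ((L (t + c)).image v).card = (L (t + c)).card := fun t ht =>
    card_image_of_injOn fun a ha b hb e =>
      hv a (o3 _ (r1 t) (r2 t ht) a ha).1 b (o3 _ (r1 t) (r2 t ht) b hb).1 e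
  have sy : ∀ a < n + c, ∀ b < n + c, ∀ a' < n + c, ∀ b' < n + c,
      s(v a, v b) = s(v a', v b') → s(a, b) = s(a', b') := by
    intro a ha b hb a' ha' b' hb' e
    rw [Sym2.eq_iff] at e ⊢
    rcases e with e | e
    · exact Or.inl ⟨hv _ ha _ ha' e.1, hv _ hb _ hb' e.2⟩
    · exact Or.inr ⟨hv _ ha _ hb' e.1, hv _ hb _ ha' e.2⟩
  refine asm V G n (fun t => v (x (t + c))) (fun t => v (z (t + c)))
    (fun t => (A (t + c)).image v) (fun t => (L (t + c)).image v) hE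
    (fun t ht u hu => ?_) (fun t ht u hu => ?_) (fun t ht => ?_) (fun t ht => ?_)
    (fun s hs t ht u hu w hw e => ?_) (fun s hs t ht u hu w hw e => ?_)
    (fun s hs t ht u hu w hw e => ?_)
  · obtain ⟨y, y1, rfl⟩ := mem_image.1 hu
    obtain ⟨b1, b2, b3⟩ := o2 _ (r1 t) (r2 t ht) y y1
    exact hg _ (o1 _ (r1 t) (r2 t ht)).1 y b1 b2 b3
  · obtain ⟨y, y1, rfl⟩ := mem_image.1 hu
    obtain ⟨b1, b2, b3, b4, b5, b6, b7⟩ := o3 _ (r1 t) (r2 t ht) y y1
    obtain ⟨d1, d2⟩ := o1 _ (r1 t) (r2 t ht)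
    refine ⟨hg _ d2 y b1 b2 b3, fun e => b4 (hv _ d2 _ d1 e), fun e => ?_,
      fun e => b6 (hv _ b1 _ d1 e), fun e => ?_⟩
    · obtain ⟨w, w1, w2⟩ := mem_image.1 e
      exact b5 (hv _ (o2 _ (r1 t) (r2 t ht) w w1).1 _ d2 w2 ▸ w1)
    · obtain ⟨w, w1, w2⟩ := mem_image.1 e
      exact b7 (hv _ (o2 _ (r1 t) (r2 t ht) w w1).1 _ b1 w2 ▸ w1)
  · have := o4 _ (r1 t) (r2 t ht)
    rw [cA t ht, cL t ht]
    omega
  · rw [cA t (by omega), cL t (by omega), cA _ ht, cL _ ht, show t + 1 + c = t + c + 1 by omega]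
    exact o5 _ (r1 t) (by omega)
  · obtain ⟨y, y1, rfl⟩ := mem_image.1 hu
    obtain ⟨y', y2, rfl⟩ := mem_image.1 hw
    have := o6 _ (r1 s) (r2 s hs) _ (r1 t) (r2 t ht) y y1 y' y2
      (sy _ (o1 _ (r1 s) (r2 s hs)).1 _ (o2 _ (r1 s) (r2 s hs) y y1).1 _
        (o1 _ (r1 t) (r2 t ht)).1 _ (o2 _ (r1 t) (r2 t ht) y' y2).1 e)
    omega
  · obtain ⟨y, y1, rfl⟩ := mem_image.1 hu
    obtain ⟨y', y2, rfl⟩ := mem_image.1 hw
    exact o7 _ (r1 s) (r2 s hs) _ (r1 t) (r2 t ht) y y1 y' y2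
      (sy _ (o1 _ (r1 s) (r2 s hs)).1 _ (o2 _ (r1 s) (r2 s hs) y y1).1 _
        (o1 _ (r1 t) (r2 t ht)).2 _ (o3 _ (r1 t) (r2 t ht) y' y2).1 e)
  · obtain ⟨y, y1, rfl⟩ := mem_image.1 hu
    obtain ⟨y', y2, rfl⟩ := mem_image.1 hw
    have := o8 _ (r1 s) (r2 s hs) _ (r1 t) (r2 t ht) y y1 y' y2
      (sy _ (o1 _ (r1 s) (r2 s hs)).2 _ (o3 _ (r1 s) (r2 s hs) y y1).1 _
        (o1 _ (r1 t) (r2 t ht)).2 _ (o3 _ (r1 t) (r2 t ht) y' y2).1 e)
    omega

theorem order {V : Type} [DecidableEq V] (U : Finset V) (h : V → V → Prop) [DecidableRel h]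
    (n c : ℕ) (H : G0 U h n c) : ∃ v : ℕ → V, Set.BijOn v (range (n + c) : Finset ℕ) U ∧
      Out2 (n + c) c (fun p q => h (v p) (v q)) := by
  by_cases t : ∃ X, Tiny U h n c X
  · obtain ⟨X, hX⟩ := t
    by_cases k : ∀ u ∈ U \ X, ∀ x ∈ X, ¬ h u x → ∀ y ∈ U \ X, ∀ y' ∈ U \ X, h y y' →
        y = u ∨ y' = u
    · obtain ⟨v, Z, v1, v2⟩ := sel0 idS V U h n c X H hX k
      exact ⟨v, v1, core0 ori2 _ _ _ _ _ _ v2⟩
    · push Not at k
      obtain ⟨u, hu, x, hx, k1, y, hy, y', hy', k2, k3, k4⟩ := k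
      obtain ⟨g, hg⟩ := selB idS V U h n c X u x y y' H hX hu hx k1 hy hy' k2 k3 k4
      have c1 := card_pos.2 ⟨x, hx⟩
      have c2 := hX.2.1
      have c3 := H.hn
      have c4 : c * c ≤ c ^ 6 := by
        rw [← pow_two]
        exact Nat.pow_le_pow_right (by omega) (by omega)
      have c5 : c ≤ c * c := Nat.le_mul_self c
      have c6 : (c - 1 + 1) * (c - 1 + c) ≤ c * (2 * c) := Nat.mul_le_mul (by omega) (by omega)
      rw [mul_left_comm] at c6
      obtain ⟨v, ω, v1, v2⟩ := place V U h n c (c - 1) (n / 10000) g H hg (by omega) (by omega)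
        (by omega) (by omega) (by omega)
      exact ⟨v, v1, core1 ori2 v2⟩
  · obtain ⟨s, D, g, hg, a1, a2, a3, a4, a5⟩ := selA gap top V U h n c H fun Y hY => t ⟨Y, hY⟩
    obtain ⟨v, ω, v1, v2⟩ := place V U h n c s D g H hg a1 a2 a3 a4 a5
    exact ⟨v, v1, core1 ori2 v2⟩

theorem main (V : Type) [Fintype V] (G : SimpleGraph V) (n : ℕ)
    (hE : G.edgeSet.ncard = n * (n + 1) / 2)
    (hN : 10 ^ 31 * (G.support.ncard - n) ^ 6 ≤ n) : Dec G n := by
  classical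
  obtain ⟨U, mU⟩ : ∃ U : Finset V, ∀ u, u ∈ U ↔ u ∈ G.support :=
    ⟨univ.filter (· ∈ G.support), by simp⟩
  have eU : G.support = U := Set.ext fun u => (mU u).symm
  rw [eU, Set.ncard_coe_finset] at hN
  obtain ⟨N, hU⟩ : ∃ N, U.card = N := ⟨_, rfl⟩
  let h : V → V → Prop := fun u w => w ≠ u ∧ ¬ G.Adj u w
  have hs : ∀ u w, h u w → h w u := fun u w t => ⟨t.1.symm, fun k => t.2 k.symm⟩
  have hi : ∀ u, ¬ h u u := fun u t => t.1 rfl
  have d2 : ∑ u ∈ U, (U.filter (h u)).card + n * (n + 1) = N * (N - 1) := by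
    have a1 : ∑ u ∈ U, G.degree u = n * (n + 1) := by
      rw [sum_subset (subset_univ U) fun u _ hu => ?_, G.sum_degrees_eq_twice_card_edges,
        ← Set.ncard_coe_finset, SimpleGraph.coe_edgeFinset, hE]
      · exact Nat.two_mul_div_two_of_even (Nat.even_mul_succ_self n)
      · by_contra k
        obtain ⟨w, hw⟩ := (G.degree_pos_iff_exists_adj u).1 (Nat.pos_of_ne_zero k)
        exact hu ((mU u).2 ⟨w, hw⟩)
    rw [← a1, ← sum_add_distrib, ← hU, ← smul_eq_mul, ← sum_const]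
    refine sum_congr rfl fun u hu => ?_
    rw [← card_erase_of_mem hu, ← SimpleGraph.card_neighborFinset_eq_degree,
      ← card_union_of_disjoint]
    · congr 1
      ext w
      simp only [mem_union, mem_filter, SimpleGraph.mem_neighborFinset, mem_erase, h]
      constructor
      · rintro (t | t)
        · exact ⟨t.2.1, t.1⟩
        · exact ⟨t.ne.symm, (mU w).2 ⟨u, t.symm⟩⟩
      · intro t
        by_cases k : G.Adj u w
        · exact Or.inr k
        · exact Or.inl ⟨t.2, t.1, k⟩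
    · exact disjoint_left.2 fun w t k =>
        (mem_filter.1 t).2.2 ((G.mem_neighborFinset u w).1 k)
  rcases Nat.eq_zero_or_pos n with n0 | n0
  · subst n0
    have e : G = ⊥ := by
      rw [← SimpleGraph.edgeSet_eq_empty, ← Set.ncard_eq_zero (Set.toFinite _)]
      exact hE
    exact ⟨Fin.elim0, by simp [e], fun i => i.elim0, fun i => i.elim0, fun i => i.elim0,
      fun i => i.elim0, fun i => i.elim0⟩
  obtain ⟨c, rfl⟩ : ∃ c, N = n + (c + 1) := by
    refine ⟨N - n - 1, ?_⟩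
    by_contra k
    have a : N * (N - 1) ≤ n * n := Nat.mul_le_mul (by omega) (by omega)
    have b : n * (n + 1) = n * n + n := by ring
    omega
  rw [hU, Nat.add_sub_cancel_left] at hN
  obtain ⟨v, v1, O⟩ := order U h n (c + 1) ⟨hs, hi, hU, by omega, hN, d2⟩
  have vi : ∀ p < n + (c + 1), ∀ q < n + (c + 1), v p = v q → p = q := fun p hp q hq e =>
    v1.injOn (mem_coe.2 (mem_range.2 hp)) (mem_coe.2 (mem_range.2 hq)) e
  refine transfer G n (c + 1) hE v vi _ (fun p hp q hq k t => ?_) O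
  by_contra s
  exact t ⟨fun e => k (vi q hq p hp e), s⟩

end Pool.Agent.MP_f65396_co.h15o
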