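import Pool.Agent.MP_f65396_co.h15o.Cor1

/-! Basic properties of the second stars in the main case. -/

set_option autoImplicit false

namespace Pool.Agent.MP_f65396_co.h15o

open Finset Pool.Agent.MP_f65396_co.h15

variable {N n c s D B m : ℕ} {h : ℕ → ℕ → Prop} [DecidableRel h] {ω z : ℕ → ℕ}
  {L : ℕ → Finset ℕ}

omit [DecidableRel h] in
lemma L_act (G : HL N c s D B m h ω z L) {p v : ℕ} (hp : p < N) (hv : v ∈ L p) :
    (c ≤ p ∧ p < s) ∨ N - m - (3 * B + 2 * D) < p := by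
  have a := card_pos.2 ⟨v, hv⟩
  by_cases e : p < s
  · have := G.b1 p e
    omega
  · have := G.b2 p (by omega) hp
    omega

lemma z_lt (H : H1 N n c s D B m h ω) (Z : HZ N c s D B m ω z) {p : ℕ} (hp : p < N)
    (ha : p < s ∨ N - m - (3 * B + 2 * D) ≤ p) : z p < m + 2 * s + (3 * B + 2 * D) := by
  have := H.hc
  have := H.hcD
  have := H.hB
  rcases zcase Z ha with t | ⟨i, hi, -, t⟩ | t | t <;> omega

lemma z_inj (H : H1 N n c s D B m h ω) (Z : HZ N c s D B m ω z) {p q : ℕ} (hp : p < N) (hq : q < N)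
    (ha : (c ≤ p ∧ p < s) ∨ N - m - (3 * B + 2 * D) ≤ p)
    (hb : (c ≤ q ∧ q < s) ∨ N - m - (3 * B + 2 * D) ≤ q) (e : z p = z q) : p = q := by
  have := H.hN
  have := H.hc
  have := H.hcD
  have := H.hsD
  have := H.hB
  have := H.hm
  have := H.hn
  rcases zcase Z (p := p) (by omega) with t | ⟨i, hi, t, t'⟩ | t | t <;>
    rcases zcase Z (p := q) (by omega) with u | ⟨k, hk, u, u'⟩ | u | u <;> try omega
  rw [t, u, show i = k by omega]

lemma zL_inj (H : H1 N n c s D B m h ω) (Z : HZ N c s D B m ω z) (G : HL N c s D B m h ω z L)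
    {p q v w : ℕ} (hp : p < N) (hq : q < N) (hv : v ∈ L p) (hw : w ∈ L q) (e : z p = z q) :
    p = q := by
  have a := L_act G hp hv
  have b := L_act G hq hw
  exact z_inj H Z hp hq (by omega) (by omega) e

lemma L_basic (H : H1 N n c s D B m h ω) (Z : HZ N c s D B m ω z) (G : HL N c s D B m h ω z L)
    {p v : ℕ} (hp : p < N) (hv : v ∈ L p) :
    v < N ∧ v ≠ z p ∧ ¬ h (z p) v ∧ v ≠ p ∧ (m ≤ v → z p < v) := by
  have := H.hN
  have := H.hc
  have := H.hcD
  have := H.hsD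
  have := H.hB
  have := H.hm
  have := H.hn
  have p0 := L_act G hp hv
  have zl := z_lt H Z hp (by omega)
  rcases G.mem p hp v hv with ⟨j, hs, hj, rfl, e⟩ | ⟨i, hi, rfl, e⟩ | ⟨e1, e2, e3⟩
  · rw [Z.zu j hs]
    rcases e with ⟨e0, e1, e2, e3⟩ | ⟨e1, e2, e3, e4, e5⟩ | ⟨e1, e2, e3, e4, e5⟩ |
      ⟨e1, i, hi, rfl, e2, e3⟩
    · exact ⟨by omega, by omega, fun x => e3 (H.hs _ _ x), by omega, by omega⟩
    · exact ⟨e3, by omega, e5, by omega, by omega⟩
    · exact ⟨by omega, by omega, fun x => e5 (H.hs _ _ x), by omega, by omega⟩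
    · have := Z.wr i hi
      exact ⟨by omega, by omega, e3, by omega, by omega⟩
  · rw [Z.zw i hi]
    have := Z.wr i hi
    rcases e with ⟨e1, e2⟩ | ⟨e1, e2, e3⟩ | ⟨k, e1, e2, rfl, e3, e4⟩
    · exact ⟨by omega, by omega, e2, by omega, by omega⟩
    · exact ⟨by omega, by omega, e3, by omega, by omega⟩
    · have := Z.wr k e2
      exact ⟨by omega, by omega, e4, fun t => by
        have := Z.wi k e2 i hi t
        omega, by omega⟩
  · exact ⟨by omega, by omega, fun x => e3 (H.hs _ _ x), by omega, by omega⟩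

lemma L_hi (H : H1 N n c s D B m h ω) (Z : HZ N c s D B m ω z) (G : HL N c s D B m h ω z L)
    {p v : ℕ} (hp : p < N) (hv : v ∈ L p) (h1 : N - m - (3 * B + 2 * D) ≤ v) (h2 : ¬ h v p) :
    (N - m ≤ p ∧ (p < v ∨ v < N - m)) ∨
      ∃ i k, i < k ∧ k < s ∧ p = ω i ∧ v = ω k := by
  have := H.hN
  have := H.hc
  have := H.hcD
  have := H.hsD
  have := H.hB
  have := H.hm
  have := H.hn
  rcases G.mem p hp v hv with ⟨j, hs, hj, rfl, e⟩ | ⟨i, hi, rfl, e⟩ | ⟨e1, e2, e3⟩
  · rcases e with e | e | e | ⟨e1, i, hi, rfl, -⟩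
    · omega
    · exact Or.inl ⟨by omega, Or.inl e.1⟩
    · exact absurd e.2.2.2.1 h2
    · have := Z.wr i hi
      exact Or.inl (by omega)
  · rcases e with e | e | ⟨k, e1, e2, rfl, -⟩
    · omega
    · omega
    · exact Or.inr ⟨i, k, e1, e2, rfl, rfl⟩
  · omega

lemma L_both (H : H1 N n c s D B m h ω) (Z : HZ N c s D B m ω z) (G : HL N c s D B m h ω z L)
    {x y : ℕ} (hx : x < N) (hy : y < N) (k : ¬ h x y) (h1 : N - m - (3 * B + 2 * D) ≤ x)
    (h2 : N - m - (3 * B + 2 * D) ≤ y) (b1 : y ∈ L x) (b2 : x ∈ L y) : False := by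
  have := H.hN
  have := H.hB
  have := H.hm
  have := H.hn
  rcases L_hi H Z G hx b1 h2 (fun t => k (H.hs _ _ t)) with e | ⟨i, j, e1, e2, e3, e4⟩ <;>
    rcases L_hi H Z G hy b2 h1 k with f | ⟨i', j', f1, f2, f3, f4⟩
  · omega
  · have := Z.wr j' f2
    omega
  · have := Z.wr j e2
    omega
  · have a1 := Z.wi i (by omega) j' f2 (e3.symm.trans f4)
    have a2 := Z.wi j e2 i' (by omega) (e4.symm.trans f3)
    omega

lemma L_anti (H : H1 N n c s D B m h ω) (Z : HZ N c s D B m ω z) (G : HL N c s D B m h ω z L)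
    {p q : ℕ} (hp : p < N) (hq : q < N) (h1 : z q ∈ L p) (h2 : z p ∈ L q) : False := by
  have := H.hN
  have := H.hc
  have := H.hcD
  have := H.hsD
  have := H.hB
  have := H.hm
  have := H.hn
  have ap := L_act G hp h1
  have aq := L_act G hq h2
  have zp := z_lt H Z hp (by omega)
  have zq := z_lt H Z hq (by omega)
  have r1 : ∀ j v, j < m → v < m → Pre N c s D B m h ω j v →
      v < j ∧ (s ≤ v ∨ m - 3 * D ≤ j) := by
    rintro j v hj hv (e | e | e | ⟨-, i, hi, e, -⟩)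
    · omega
    · omega
    · omega
    · have := Z.wr i hi
      omega
  have r2 : ∀ i v, v < m → PreX c s h ω i v → v < i ∨ (s ≤ v ∧ v < s + c) := by
    rintro i v hv (e | e | ⟨k, -, hk, e, -⟩)
    · omega
    · omega
    · have := Z.wr k hk
      omega
  rcases G.mem p hp _ h1 with ⟨j, hs, hj, rfl, e⟩ | ⟨i, hi, rfl, e⟩ | ⟨e1, -⟩
  · rcases G.mem q hq _ h2 with ⟨j', hs', hj', rfl, e'⟩ | ⟨i', hi', rfl, e'⟩ | ⟨e1, -⟩
    · rw [Z.zu _ hs'] at e
      rw [Z.zu _ hs] at e'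
      have a1 := r1 _ _ hj hj' e
      have a2 := r1 _ _ hj' hj e'
      omega
    · rw [Z.zw _ hi'] at e
      rw [Z.zu _ hs] at e'
      have a1 := r1 _ _ hj (by omega) e
      have a2 := r2 _ _ hj e'
      omega
    · omega
  · rcases G.mem q hq _ h2 with ⟨j', hs', hj', rfl, e'⟩ | ⟨i', hi', rfl, e'⟩ | ⟨e1, -⟩
    · rw [Z.zu _ hs'] at e
      rw [Z.zw _ hi] at e'
      have a1 := r1 _ _ hj' (by omega) e'
      have a2 := r2 _ _ hj' e
      omega
    · rw [Z.zw _ hi'] at e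
      rw [Z.zw _ hi] at e'
      have a1 := r2 _ _ (by omega) e
      have a2 := r2 _ _ (by omega) e'
      omega
    · omega
  · omega

lemma L_count (H : H1 N n c s D B m h ω) (G : HL N c s D B m h ω z L) {x : ℕ} (hs : s ≤ x)
    (hx : x < N) : ((range N).filter (fun p => x ∈ L p)).card ≤ 4 * B + 7 * D := by
  have := H.hN
  have := H.hc
  have := H.hcD
  have := H.hsD
  have := H.hB
  have := H.hm
  have := H.hn
  obtain ⟨Y, hY⟩ : ∃ Y, Y = x + (N - m - (3 * B + 2 * D)) - (m + 2 * s + (3 * B + 2 * D)) :=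
    ⟨_, rfl⟩
  have s1 : (range N).filter (fun p => x ∈ L p) ⊆
      ((Ioc (N - m + x) (N - m + x + B) ∪ Ico (x - B) x) ∪
        ((range N).filter (h x) ∪ Ico (N - m + s) (N - m + s + c))) ∪
      ((range s).image ω ∪ (range s ∪ Ioc (Y - (2 * B + 3 * D)) Y)) := by
    intro p hp
    obtain ⟨p1, p2⟩ := mem_filter.1 hp
    have p0 := L_act G (mem_range.1 p1) p2
    simp only [mem_union, mem_Ico, mem_Ioc, mem_filter]
    rcases G.mem p (mem_range.1 p1) x p2 with ⟨j, h1, hj, rfl, e | e | e | e⟩ | ⟨i, hi, rfl, -⟩ |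
      ⟨e1, e2, -⟩
    · exact Or.inl (Or.inl (Or.inl (by omega)))
    · exact Or.inl (Or.inl (Or.inr (by omega)))
    · exact Or.inl (Or.inr (Or.inl ⟨p1, e.2.2.2.1⟩))
    · exact Or.inl (Or.inr (Or.inr (by omega)))
    · exact Or.inr (Or.inl (mem_image_of_mem _ (mem_range.2 hi)))
    · rcases p0 with t | t
      · exact Or.inr (Or.inr (Or.inl (mem_range.2 t.2)))
      · exact Or.inr (Or.inr (Or.inr (by omega)))
  have a1 := (card_le_card s1).trans ((card_union_le _ _).trans (Nat.add_le_add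
    ((card_union_le _ _).trans (Nat.add_le_add (card_union_le _ _) ((card_union_le _ _).trans
      (Nat.add_le_add_right (H.hD x hs hx) _))))
    ((card_union_le _ _).trans (Nat.add_le_add card_image_le (card_union_le _ _)))))
  rw [Nat.card_Ioc, Nat.card_Ico, Nat.card_Ico, card_range, Nat.card_Ioc] at a1
  omega

end Pool.Agent.MP_f65396_co.h15o
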